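import Mathlib

/-!
# Sequent proofs whose formulas are circuits, symmetric proofs, the pigeonhole principle
-/

set_option autoImplicit false

namespace Pool.Agent.T9h47.SF

open Equiv

/-- The possible formulas at a node `g : G`: a variable, a negation, a conjunction or a disjunction of
a finite set of nodes. -/
inductive Gt (V G : Type) : Type
  | var (v : V)
  | neg (g : G)
  | conj (S : Finset G)
  | disj (S : Finset G)

/-- The immediate subformulas. -/
def Gt.kids {V G : Type} : Gt V G → Set G
  | .var _ => ∅
  | .neg g => {g}
  | .conj S => S
  | .disj S => S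

/-- Renaming of the variables and of the nodes. -/
def Gt.map {V G : Type} (σ : Perm V) (α : Perm G) : Gt V G → Gt V G
  | .var v => .var (σ v)
  | .neg g => .neg (α g)
  | .conj S => .conj (S.map α.toEmbedding)
  | .disj S => .disj (S.map α.toEmbedding)

/-- A proof in the sequent calculus with variables `V`. The formulas are the nodes `G` of a circuit
(an acyclic graph) with conjunctions and disjunctions of unbounded fan-in and without restriction on
the depth. The sequents of the proof are `left l ⊢ right l`, `l : L`. Both are ordered by ranks, so
that the circuit is acyclic, and the premises of a sequent come before it. -/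
structure Pf (V : Type) where
  /-- formulas -/
  G : Type
  /-- sequents -/
  L : Type
  /-- there are finitely many formulas -/
  finG : Fintype G
  /-- there are finitely many sequents -/
  finL : Fintype L
  /-- the formula at a node -/
  gate : G → Gt V G
  /-- rank of a formula -/
  grank : G → ℕ
  /-- subformulas have smaller rank -/
  grank_lt : ∀ g h, h ∈ (gate g).kids → grank h < grank g
  /-- left side of a sequent -/
  left : L → Finset G
  /-- right side of a sequent -/
  right : L → Finset G
  /-- rank of a sequent -/
  lrank : L → ℕ

variable {V : Type}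

/-- The number of formulas and sequents. -/
def Pf.size (P : Pf V) : ℕ := @Fintype.card P.G P.finG + @Fintype.card P.L P.finL

/-- `l'` comes before `l`, has its left formulas in `X` and its right formulas in `Y`. -/
def Pf.Prem (P : Pf V) (l l' : P.L) (X Y : Set P.G) : Prop :=
  P.lrank l' < P.lrank l ∧ (∀ g ∈ P.left l', g ∈ X) ∧ ∀ g ∈ P.right l', g ∈ Y

/-- The rules of the sequent calculus, all of them with weakening built in. A clause is given by the
set of its negative and the set of its positive variables, and `F` is the set of the clauses which
are refuted. -/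
inductive Pf.Rule (P : Pf V) (F : Set (Finset V × Finset V)) (l : P.L) : Prop
  | ax (c : Finset V × Finset V) : c ∈ F → (∀ v ∈ c.1, ∃ g ∈ P.left l, P.gate g = .var v) →
      (∀ v ∈ c.2, ∃ g ∈ P.right l, P.gate g = .var v) → Pf.Rule P F l
  | ident (g : P.G) : g ∈ P.left l → g ∈ P.right l → Pf.Rule P F l
  | weak (l' : P.L) : P.Prem l l' (P.left l) (P.right l) → Pf.Rule P F l
  | cut (g : P.G) (l₁ l₂ : P.L) : P.Prem l l₁ (P.left l) (insert g (P.right l)) →
      P.Prem l l₂ (insert g (P.left l)) (P.right l) → Pf.Rule P F l
  | negL (g h : P.G) (l' : P.L) : P.gate g = .neg h → g ∈ P.left l →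
      P.Prem l l' (P.left l) (insert h (P.right l)) → Pf.Rule P F l
  | negR (g h : P.G) (l' : P.L) : P.gate g = .neg h → g ∈ P.right l →
      P.Prem l l' (insert h (P.left l)) (P.right l) → Pf.Rule P F l
  | conjL (g h : P.G) (S : Finset P.G) (l' : P.L) : P.gate g = .conj S → g ∈ P.left l → h ∈ S →
      P.Prem l l' (insert h (P.left l)) (P.right l) → Pf.Rule P F l
  | conjR (g : P.G) (S : Finset P.G) : P.gate g = .conj S → g ∈ P.right l →
      (∀ h ∈ S, ∃ l', P.Prem l l' (P.left l) (insert h (P.right l))) → Pf.Rule P F l
  | disjL (g : P.G) (S : Finset P.G) : P.gate g = .disj S → g ∈ P.left l →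
      (∀ h ∈ S, ∃ l', P.Prem l l' (insert h (P.left l)) (P.right l)) → Pf.Rule P F l
  | disjR (g h : P.G) (S : Finset P.G) (l' : P.L) : P.gate g = .disj S → g ∈ P.right l → h ∈ S →
      P.Prem l l' (P.left l) (insert h (P.right l)) → Pf.Rule P F l

/-- The proof is a refutation of the clauses `F`: every sequent is obtained by a rule, and the empty
sequent is among them. -/
def Pf.Refutes (P : Pf V) (F : Set (Finset V × Finset V)) : Prop :=
  (∀ l, P.Rule F l) ∧ ∃ l, P.left l = ∅ ∧ P.right l = ∅

/-- The permutations `α` of the formulas and `β` of the sequents form an automorphism of the proof over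
the permutation `σ` of the variables. -/
def Pf.Ext (P : Pf V) (σ : Perm V) (α : Perm P.G) (β : Perm P.L) : Prop :=
  (∀ g, P.gate (α g) = (P.gate g).map σ α) ∧
  (∀ l, P.left (β l) = (P.left l).map α.toEmbedding) ∧
  (∀ l, P.right (β l) = (P.right l).map α.toEmbedding)

/-- The permutation of the variables `(i, j)` given by a permutation of the `j`. -/
def lf {A B : Type} (σ : Perm B) : Perm (A × B) := Equiv.prodCongr (Equiv.refl A) σ

/-- The clauses of the pigeonhole principle for the pigeons `A` and the holes `B`: the variables
`(i, j)` form the graph of a bijection (every pigeon has a hole, every hole has a pigeon, a hole has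
at most one pigeon, and a pigeon has at most one hole). -/
inductive Php (A B : Type) [Fintype A] [Fintype B] [DecidableEq A] [DecidableEq B] :
    Finset (A × B) × Finset (A × B) → Prop
  | pigeon (i : A) : Php A B (∅, Finset.univ.filter (fun v => v.1 = i))
  | hole (j : B) : Php A B (∅, Finset.univ.filter (fun v => v.2 = j))
  | inj (i i' : A) (j : B) : i ≠ i' → Php A B ({(i, j), (i', j)}, ∅)
  | fn (i : A) (j j' : B) : j ≠ j' → Php A B ({(i, j), (i, j')}, ∅)

/-- The proof is symmetric with respect to the permutations of the holes in `H`: every permutation of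
the holes which fixes all holes outside of `H` extends to an automorphism of the proof. -/
def Pf.SymmetricOn {A B : Type} (P : Pf (A × B)) (H : Finset B) : Prop :=
  ∀ σ : Perm B, (∀ j, j ∉ H → σ j = j) → ∃ α β, P.Ext (lf σ) α β

end Pool.Agent.T9h47.SF
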