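import Mathlib

/-!
# Subgroups of small index of the symmetric group contain large alternating groups
-/

set_option autoImplicit false
set_option linter.unusedSectionVars false

namespace Pool.Agent.T9h47.SF

open Finset Equiv Equiv.Perm
open scoped commutatorElement

variable {α : Type} [Fintype α] [DecidableEq α]

/-- even permutations which move only elements of `B` -/
def EvOn (B : Finset α) (g : Perm α) : Prop := (∀ x, x ∉ B → g x = x) ∧ sign g = 1

theorem EvOn.mono {B B' : Finset α} (h : B ⊆ B') {g : Perm α} (hg : EvOn B g) : EvOn B' g :=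
  ⟨fun x hx => hg.1 x (fun hx' => hx (h hx')), hg.2⟩

theorem EvOn.inv {B : Finset α} {g : Perm α} (hg : EvOn B g) : EvOn B g⁻¹ :=
  ⟨fun x hx => by rw [Perm.inv_eq_iff_eq, hg.1 x hx], by rw [sign_inv, hg.2]⟩

theorem EvOn.mul {B : Finset α} {g g' : Perm α} (hg : EvOn B g) (hg' : EvOn B g') :
    EvOn B (g * g') :=
  ⟨fun x hx => by rw [Perm.mul_apply, hg'.1 x hx, hg.1 x hx], by rw [Perm.sign_mul, hg.2, hg'.2, one_mul]⟩

theorem EvOn.exists_sub {B : Finset α} {g : Perm α} (hg : EvOn B g) :
    ∃ g' : alternatingGroup {x // x ∈ B}, ofSubtype (p := fun x => x ∈ B) (g' : Perm _) = g := by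
  have hne : ∀ x, g x ≠ x → x ∈ B := by
    intro x hx
    by_contra h
    exact hx (hg.1 x h)
  have h1 : ∀ x, g x ∈ B ↔ x ∈ B := by
    intro x
    by_cases hx : g x = x
    · rw [hx]
    · have h2 : x ∈ B := hne x hx
      have h3 : g x ∈ B := hne (g x) (fun h => hx (g.injective h))
      exact ⟨fun _ => h2, fun _ => h3⟩
  refine ⟨⟨g.subtypePerm h1, ?_⟩, ofSubtype_subtypePerm h1 hne⟩
  rw [mem_alternatingGroup]
  have h4 := (sign_subtypePerm g h1 hne).trans hg.2
  have h5 : ∀ (I₁ I₂ : Fintype {x // x ∈ B}) (p : Perm {x // x ∈ B}),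
      @sign _ _ I₁ p = @sign _ _ I₂ p := fun I₁ I₂ p => by rw [Subsingleton.elim I₁ I₂]
  rw [← h4]
  exact h5 _ _ _

theorem evOn_ofSubtype {B : Finset α} (g' : Perm {x // x ∈ B}) (h : sign g' = 1) :
    EvOn B (ofSubtype (p := fun x => x ∈ B) g') :=
  ⟨fun x hx => ofSubtype_apply_of_not_mem _ hx, by rw [sign_ofSubtype, h]⟩

theorem good_of_comm (K : Subgroup (Perm α)) {B : Finset α} (hB : 5 ≤ B.card)
    (h : ∀ a b, EvOn B a → EvOn B b → ⁅a, b⁆ ∈ K) {g : Perm α} (hg : EvOn B g) : g ∈ K := by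
  obtain ⟨g', hg'⟩ := hg.exists_sub
  obtain ⟨φ, hφ⟩ : ∃ φ : alternatingGroup {x // x ∈ B} →* Perm α, φ =
    (ofSubtype (p := fun x => x ∈ B)).comp (alternatingGroup {x // x ∈ B}).subtype := ⟨_, rfl⟩
  have h1 : commutator (alternatingGroup {x // x ∈ B}) ≤ K.comap φ := by
    rw [commutator_def, Subgroup.commutator_le]
    intro x _ y _
    rw [Subgroup.mem_comap, map_commutatorElement, hφ]
    exact h _ _ (evOn_ofSubtype _ (mem_alternatingGroup.1 x.2))
      (evOn_ofSubtype _ (mem_alternatingGroup.1 y.2))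
  have h2 : commutator (alternatingGroup {x // x ∈ B}) = ⊤ :=
    commutator_alternatingGroup_eq_top (by simpa using hB)
  rw [h2] at h1
  have h3 := h1 (Subgroup.mem_top g')
  rw [Subgroup.mem_comap, hφ] at h3
  rw [← hg']
  exact h3

theorem good_of_five (K : Subgroup (Perm α)) {U : Finset α} (hU : 5 ≤ U.card)
    (h : ∀ B ⊆ U, B.card = 5 → ∀ g, EvOn B g → g ∈ K) {g : Perm α} (hg : EvOn U g) : g ∈ K := by
  obtain ⟨g', hg'⟩ := hg.exists_sub
  have h1 : alternatingGroup {x // x ∈ U} ≤ K.comap (ofSubtype (p := fun x => x ∈ U)) := by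
    rw [← closure_three_cycles_eq_alternating, Subgroup.closure_le]
    intro c hc
    have hc3 : c.IsThreeCycle := hc
    rw [SetLike.mem_coe, Subgroup.mem_comap]
    obtain ⟨S, hS⟩ : ∃ S, S = c.support.map (Function.Embedding.subtype (fun x => x ∈ U)) := ⟨_, rfl⟩
    have hSU : S ⊆ U := by
      intro x hx
      rw [hS, mem_map] at hx
      obtain ⟨y, _, rfl⟩ := hx
      exact y.2
    have hSc : S.card = 3 := by rw [hS, card_map, hc3.card_support]
    obtain ⟨B, hB1, hB2, hB3⟩ := exists_subsuperset_card_eq hSU (by omega : S.card ≤ 5) hU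
    refine h B hB2 hB3 _ ⟨?_, ?_⟩
    · intro x hx
      by_cases hxU : x ∈ U
      · rw [ofSubtype_apply_of_mem _ hxU]
        have : (⟨x, hxU⟩ : {x // x ∈ U}) ∉ c.support := by
          intro h2
          apply hx
          apply hB1
          rw [hS, mem_map]
          exact ⟨_, h2, rfl⟩
        rw [notMem_support.1 this]
      · exact ofSubtype_apply_of_not_mem _ hxU
    · rw [sign_ofSubtype, hc3.sign]
  rw [← hg']
  exact h1 g'.2

/-! ### Blocks -/

section blocks

variable {ι : Type} [LinearOrder ι] [Fintype ι]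

/-- the union of the blocks up to `i` -/
def upTo (B : ι → Finset α) (i : ι) : Finset α := univ.filter (fun x => ∃ j, j ≤ i ∧ x ∈ B j)

theorem mem_upTo {B : ι → Finset α} {i : ι} {x : α} : x ∈ upTo B i ↔ ∃ j, j ≤ i ∧ x ∈ B j := by
  simp [upTo]

/-- some even permutation of the block `i` is not induced by an element of `K` which moves only
elements of the blocks up to `i` -/
def Ty (K : Subgroup (Perm α)) (B : ι → Finset α) (i : ι) : Prop :=
  ∃ t : Perm α, EvOn (B i) t ∧ ¬ ∃ k ∈ K, (∀ x, x ∉ upTo B i → k x = x) ∧ ∀ x ∈ B i, k x = t x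

/-- gluing permutations of blocks -/
theorem exists_glue (B : ι → Finset α) (hB : ∀ i j, i ≠ j → Disjoint (B i) (B j))
    (t : ι → Perm α) (ht : ∀ i, ∀ x, x ∉ B i → t i x = x) (I : Finset ι) :
    ∃ g : Perm α, (∀ i ∈ I, ∀ x ∈ B i, g x = t i x) ∧ (∀ x, (∀ i ∈ I, x ∉ B i) → g x = x) := by
  classical
  induction I using Finset.induction_on with
  | empty => exact ⟨1, by simp, fun x _ => rfl⟩
  | insert a I ha ih =>
    obtain ⟨g, h1, h2⟩ := ih
    have hst : ∀ i, ∀ x ∈ B i, t i x ∈ B i := by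
      intro i x hx
      by_contra h
      have h3 := ht i _ h
      have h4 := (t i).injective h3
      rw [h4] at h
      exact h hx
    refine ⟨t a * g, ?_, ?_⟩
    · intro i hi x hx
      rw [Perm.mul_apply]
      rcases mem_insert.1 hi with rfl | hi
      · rw [h2 x]
        intro j hj hxj
        have hne : i ≠ j := by rintro rfl; exact ha hj
        exact disjoint_left.1 (hB i j hne) hx hxj
      · rw [h1 i hi x hx]
        have hne : a ≠ i := by rintro rfl; exact ha hi
        refine ht a _ (fun h3 => disjoint_left.1 (hB a i hne) h3 (hst i x hx))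
    · intro x hx
      rw [Perm.mul_apply, h2 x (fun i hi => hx i (mem_insert_of_mem hi))]
      exact ht a x (hx a (mem_insert_self _ _))

/-- counting the blocks of this type -/
theorem card_Ty (K : Subgroup (Perm α)) (B : ι → Finset α)
    (hB : ∀ i j, i ≠ j → Disjoint (B i) (B j)) {C : Type} [Fintype C] (H : Finset α)
    (hBH : ∀ i, B i ⊆ H) (c : Perm α → C)
    (hc : ∀ σ τ : Perm α, (∀ x, x ∉ H → σ x = x) → (∀ x, x ∉ H → τ x = x) → c σ = c τ →
      σ⁻¹ * τ ∈ K) (I₀ : Finset ι) (hI : ∀ i ∈ I₀, Ty K B i) :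
    2 ^ I₀.card ≤ Fintype.card C := by
  classical
  have hch : ∀ i, ∃ t : Perm α, (∀ x, x ∉ B i → t x = x) ∧ (i ∈ I₀ → ¬ ∃ k ∈ K,
      (∀ x, x ∉ upTo B i → k x = x) ∧ ∀ x ∈ B i, k x = t x) := by
    intro i
    by_cases hi : i ∈ I₀
    · obtain ⟨t, h1, h2⟩ := hI i hi
      exact ⟨t, h1.1, fun _ => h2⟩
    · exact ⟨1, fun _ _ => rfl, fun h => absurd h hi⟩
  choose t ht1 ht2 using hch
  choose g hg1 hg2 using fun I : Finset ι => exists_glue B hB t ht1 I
  have hgH : ∀ I, ∀ x, x ∉ H → g I x = x := by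
    intro I x hx
    exact hg2 I x (fun i _ hxi => hx (hBH i hxi))
  by_contra hcon
  rw [not_le] at hcon
  rw [← card_powerset, ← card_univ] at hcon
  obtain ⟨I, hI1, J, hJ1, hne, heq⟩ := exists_ne_map_eq_of_card_lt_of_maps_to hcon
    (f := fun I => c (g I)) (fun I _ => mem_univ _)
  rw [mem_powerset] at hI1 hJ1
  have hst : ∀ i, ∀ x ∈ B i, t i x ∈ B i := by
    intro i x hx
    by_contra h
    have h3 := ht1 i _ h
    have h4 := (t i).injective h3
    rw [h4] at h
    exact h hx
  -- the last element of the symmetric difference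
  have hsd : (symmDiff I J).Nonempty := by
    rw [nonempty_iff_ne_empty, ne_eq, ← bot_eq_empty, symmDiff_eq_bot]; exact hne
  obtain ⟨i, hi1, hi2⟩ := (symmDiff I J).exists_maximal hsd
  -- we may assume that it is in `J`
  have key : ∀ I J : Finset ι, I ⊆ I₀ → J ⊆ I₀ → c (g I) = c (g J) → i ∉ I → i ∈ J →
      (∀ j, i < j → (j ∈ I ↔ j ∈ J)) → False := by
    intro I J hI1 hJ1 heq hiI hiJ hgt
    have hk := hc (g I) (g J) (hgH I) (hgH J) heq
    refine ht2 i (hJ1 hiJ) ⟨_, hk, ?_, ?_⟩
    · intro x hx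
      rw [Perm.mul_apply, Perm.inv_eq_iff_eq]
      by_cases hxb : ∃ j, x ∈ B j
      · obtain ⟨j, hj⟩ := hxb
        have hij : i < j := by
          by_contra h
          exact hx (mem_upTo.2 ⟨j, not_lt.1 h, hj⟩)
        have hother : ∀ j', j' ≠ j → x ∉ B j' := fun j' hj' hx' =>
          disjoint_left.1 (hB j' j hj') hx' hj
        by_cases hjI : j ∈ I
        · rw [hg1 J j ((hgt j hij).1 hjI) x hj, hg1 I j hjI x hj]
        · have hjJ : j ∉ J := fun h => hjI ((hgt j hij).2 h)
          rw [hg2 J x (fun j' hj' hx' => ?_), hg2 I x (fun j' hj' hx' => ?_)]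
          · by_cases h : j' = j
            · exact hjI (h ▸ hj')
            · exact hother j' h hx'
          · by_cases h : j' = j
            · exact hjJ (h ▸ hj')
            · exact hother j' h hx'
      · push Not at hxb
        rw [hg2 J x (fun j _ => hxb j), hg2 I x (fun j _ => hxb j)]
    · intro x hx
      rw [Perm.mul_apply, Perm.inv_eq_iff_eq, hg1 J i hiJ x hx, hg2 I]
      intro j hj hxj
      have hne : i ≠ j := by rintro rfl; exact hiI hj
      exact disjoint_left.1 (hB i j hne) (hst i x hx) hxj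
  have hgt : ∀ j, i < j → (j ∈ I ↔ j ∈ J) := by
    intro j hj
    by_contra h
    have hj' : j ∈ symmDiff I J := by
      rw [mem_symmDiff]
      tauto
    exact absurd hj (not_lt.2 (hi2 hj' hj.le))
  rw [mem_symmDiff] at hi1
  rcases hi1 with ⟨h1, h2⟩ | ⟨h1, h2⟩
  · exact key J I hJ1 hI1 heq.symm h2 h1 (fun j hj => (hgt j hj).symm)
  · exact key I J hI1 hJ1 heq h2 h1 hgt

end blocks

/-- The support theorem: a subgroup of small index contains all even permutations outside of a small
set. -/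
theorem exists_support (K : Subgroup (Perm α)) {C : Type} [Fintype C] (H : Finset α)
    (c : Perm α → C)
    (hc : ∀ σ τ : Perm α, (∀ x, x ∉ H → σ x = x) → (∀ x, x ∉ H → τ x = x) → c σ = c τ →
      σ⁻¹ * τ ∈ K) (r : ℕ) (hr : Fintype.card C < 2 ^ r) (hH : 10 * r + 5 ≤ H.card) :
    ∃ Δ ⊆ H, Δ.card ≤ 10 * r ∧ ∀ g, EvOn (H \ Δ) g → g ∈ K := by
  classical
  -- families of pairwise disjoint bad sets
  obtain ⟨Fam, hFam⟩ : ∃ Fam : Finset (Finset α) → Prop, Fam = fun 𝓑 =>
    (∀ B ∈ 𝓑, B ⊆ H ∧ B.card = 5 ∧ ¬ ∀ g, EvOn B g → g ∈ K) ∧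
    (∀ B ∈ 𝓑, ∀ B' ∈ 𝓑, B ≠ B' → _root_.Disjoint B B') := ⟨_, rfl⟩
  have hsmall : ∀ 𝓑, Fam 𝓑 → 𝓑.card ≤ 2 * r := by
    intro 𝓑 h𝓑
    rw [hFam] at h𝓑
    obtain ⟨h1, h2⟩ := h𝓑
    obtain ⟨e⟩ : Nonempty (Fin 𝓑.card ≃ {B // B ∈ 𝓑}) := ⟨(𝓑.equivFin).symm⟩
    obtain ⟨B, hB⟩ : ∃ B : Fin 𝓑.card → Finset α, B = fun i => (e i).1 := ⟨_, rfl⟩
    have hBm : ∀ i, B i ∈ 𝓑 := fun i => by rw [hB]; exact (e i).2
    have hBd : ∀ i j, i ≠ j → Disjoint (B i) (B j) := by
      intro i j hij
      refine h2 _ (hBm i) _ (hBm j) ?_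
      intro h
      apply hij
      apply e.injective
      apply Subtype.ext
      rw [hB] at h
      exact h
    -- the reverse order
    obtain ⟨B', hB'⟩ : ∃ B' : (Fin 𝓑.card)ᵒᵈ → Finset α, B' = fun i => B (OrderDual.ofDual i) :=
      ⟨_, rfl⟩
    have hB'd : ∀ i j, i ≠ j → Disjoint (B' i) (B' j) := by
      intro i j hij
      rw [hB']
      exact hBd _ _ (fun h => hij (OrderDual.ofDual.injective h))
    obtain ⟨I₁, hI₁⟩ : ∃ I₁ : Finset (Fin 𝓑.card), I₁ = univ.filter (fun i => Ty K B i) := ⟨_, rfl⟩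
    obtain ⟨I₂, hI₂⟩ : ∃ I₂ : Finset (Fin 𝓑.card)ᵒᵈ, I₂ = univ.filter (fun i => Ty K B' i) :=
      ⟨_, rfl⟩
    have hc1 : 2 ^ I₁.card ≤ Fintype.card C :=
      card_Ty K B hBd H (fun i => (h1 _ (hBm i)).1) c hc I₁ (by
        intro i hi; rw [hI₁, mem_filter] at hi; exact hi.2)
    have hc2 : 2 ^ I₂.card ≤ Fintype.card C :=
      card_Ty K B' hB'd H (fun i => by rw [hB']; exact (h1 _ (hBm _)).1) c hc I₂ (by
        intro i hi; rw [hI₂, mem_filter] at hi; exact hi.2)
    have hr1 : I₁.card < r := (Nat.pow_lt_pow_iff_right (by norm_num)).1 (hc1.trans_lt hr)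
    have hr2 : I₂.card < r := (Nat.pow_lt_pow_iff_right (by norm_num)).1 (hc2.trans_lt hr)
    have hcov : (univ : Finset (Fin 𝓑.card)) ⊆ I₁ ∪ I₂.image OrderDual.ofDual := by
      intro i _
      rw [mem_union, mem_image]
      by_contra hcon
      rw [not_or] at hcon
      obtain ⟨hn1, hn2⟩ := hcon
      have hn1' : ¬ Ty K B i := fun h => hn1 (by rw [hI₁, mem_filter]; exact ⟨mem_univ _, h⟩)
      have hn2' : ¬ Ty K B' (OrderDual.toDual i) := fun h =>
        hn2 ⟨OrderDual.toDual i, by rw [hI₂, mem_filter]; exact ⟨mem_univ _, h⟩, rfl⟩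
      unfold Ty at hn1' hn2'
      push Not at hn1' hn2'
      obtain ⟨_, h5, hbad⟩ := h1 _ (hBm i)
      apply hbad
      intro g hg
      refine good_of_comm K (by omega : 5 ≤ (B i).card) ?_ hg
      intro a b ha hb
      obtain ⟨k, hk1, hk2, hk3⟩ := hn1' a ha
      obtain ⟨k', hk1', hk2', hk3'⟩ := hn2' b (by rw [hB']; exact hb)
      have hk3'' : ∀ x ∈ B i, k' x = b x := by
        intro x hx; exact hk3' x (by rw [hB']; exact hx)
      have hstable : ∀ (g : Perm α), EvOn (B i) g → ∀ x ∈ B i, g x ∈ B i := by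
        intro g hg x hx
        by_contra h
        have h3 := hg.1 _ h
        have h4 := g.injective h3
        rw [h4] at h
        exact h hx
      -- commutators agree
      have hcomm : ⁅k, k'⁆ = ⁅a, b⁆ := by
        have hkk : k * k' = a * b * (b⁻¹ * a⁻¹ * k * k') := by group
        have hfix1 : ∀ x, x ∉ B i → k x ≠ x → k' x = x ∧ k' (k x) = k x := by
          intro x hx hkx
          have hxu : x ∈ upTo B i := by
            by_contra h; exact hkx (hk2 x h)
          have hkxu : k x ∈ upTo B i := by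
            by_contra h; exact hkx (k.injective (hk2 _ h))
          have hkxi : k x ∉ B i := by
            intro h
            have h5 : a (a⁻¹ (k x)) = k x := by simp
            have h6 : a⁻¹ (k x) ∈ B i := hstable _ ha.inv _ h
            rw [← hk3 _ h6] at h5
            rw [← k.injective h5] at hx
            exact hx h6
          have out : ∀ y, y ∈ upTo B i → y ∉ B i → k' y = y := by
            intro y hy hyi
            apply hk2'
            intro h
            obtain ⟨j, hj1, hj2⟩ := mem_upTo.1 hy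
            obtain ⟨j', hj1', hj2'⟩ := mem_upTo.1 h
            rw [hB'] at hj2'
            have h5 : j = OrderDual.ofDual j' := by
              by_contra h5
              exact disjoint_left.1 (hBd _ _ h5) hj2 hj2'
            have h6 : i ≤ OrderDual.ofDual j' := hj1'
            have h7 : j = i := le_antisymm hj1 (h5 ▸ h6)
            exact hyi (h7 ▸ hj2)
          exact ⟨out x hxu hx, out _ hkxu hkxi⟩
        ext1 x
        rw [commutatorElement_def, commutatorElement_def]
        simp only [Perm.mul_apply]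
        by_cases hx : x ∈ B i
        · have e1 : k'⁻¹ x = b⁻¹ x := by
            rw [Perm.inv_eq_iff_eq, hk3'' _ (hstable _ hb.inv _ hx)]; simp
          have m1 : b⁻¹ x ∈ B i := hstable _ hb.inv _ hx
          have e2 : k⁻¹ (b⁻¹ x) = a⁻¹ (b⁻¹ x) := by
            rw [Perm.inv_eq_iff_eq, hk3 _ (hstable _ ha.inv _ m1)]; simp
          have m2 : a⁻¹ (b⁻¹ x) ∈ B i := hstable _ ha.inv _ m1
          have e3 : k' (a⁻¹ (b⁻¹ x)) = b (a⁻¹ (b⁻¹ x)) := hk3'' _ m2
          have m3 : b (a⁻¹ (b⁻¹ x)) ∈ B i := hstable _ hb _ m2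
          rw [e1, e2, e3, hk3 _ m3]
        · have e0 : ∀ y, y ∉ B i → k (k' (k⁻¹ (k'⁻¹ y))) = y := by
            intro y hy
            have out : ∀ z, z ∉ B i → k z = z ∨ k' z = z := by
              intro z hz
              by_cases h : k z = z
              · exact Or.inl h
              · exact Or.inr (hfix1 z hz h).1
            have stab : ∀ z, z ∉ B i → k'⁻¹ z ∉ B i := by
              intro z hz h
              have h5 : k' (k'⁻¹ z) = z := by simp
              rw [hk3'' _ h] at h5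
              exact hz (h5 ▸ hstable _ hb _ h)
            have stab' : ∀ z, z ∉ B i → k⁻¹ z ∉ B i := by
              intro z hz h
              have h5 : k (k⁻¹ z) = z := by simp
              rw [hk3 _ h] at h5
              exact hz (h5 ▸ hstable _ ha _ h)
            obtain ⟨z, hz⟩ : ∃ z, z = k⁻¹ (k'⁻¹ y) := ⟨_, rfl⟩
            have hzi : z ∉ B i := by rw [hz]; exact stab' _ (stab _ hy)
            have hyz : y = k' (k z) := by rw [hz]; simp
            rw [← hz]
            by_cases h : k z = z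
            · -- `k z = z`
              by_cases h' : k (k' z) = k' z
              · rw [h', hyz, h]
              · have hki : k' z ∉ B i := by
                  intro h5
                  have h6 : b (b⁻¹ (k' z)) = k' z := by simp
                  have h7 : b⁻¹ (k' z) ∈ B i := hstable _ hb.inv _ h5
                  rw [← hk3'' _ h7] at h6
                  rw [← k'.injective h6] at hzi
                  exact hzi h7
                have h8 := (hfix1 _ hki h').1
                have h9 : k' z = z := k'.injective h8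
                rw [h9] at h'
                exact absurd h h'
            · obtain ⟨h5, h6⟩ := hfix1 z hzi h
              rw [h5, hyz, h6]
          rw [e0 x hx]
          have f1 : b⁻¹ x = x := hb.inv.1 x hx
          have f2 : a⁻¹ x = x := ha.inv.1 x hx
          rw [f1, f2, hb.1 x hx, ha.1 x hx]
      rw [← hcomm, commutatorElement_def]
      exact K.mul_mem (K.mul_mem (K.mul_mem hk1 hk1') (K.inv_mem hk1)) (K.inv_mem hk1')
    have hcard := card_le_card hcov
    rw [card_univ, Fintype.card_fin] at hcard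
    have h3 : (I₂.image OrderDual.ofDual).card ≤ I₂.card := card_image_le
    have h4 := card_union_le I₁ (I₂.image OrderDual.ofDual)
    omega
  -- a largest family
  obtain ⟨𝓑, h𝓑, hmax⟩ : ∃ 𝓑, Fam 𝓑 ∧ ∀ 𝓑', Fam 𝓑' → 𝓑'.card ≤ 𝓑.card := by
    obtain ⟨𝓑, h1, h2⟩ := exists_max_image (univ.filter Fam) card ⟨∅, by
      rw [mem_filter, hFam]; simp⟩
    rw [mem_filter] at h1
    exact ⟨𝓑, h1.2, fun 𝓑' h => h2 𝓑' (by rw [mem_filter]; exact ⟨mem_univ _, h⟩)⟩
  have h𝓑' := h𝓑
  rw [hFam] at h𝓑'
  obtain ⟨h1, h2⟩ := h𝓑'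
  have hΔ : (𝓑.biUnion id).card ≤ 10 * r := by
    refine (card_biUnion_le_card_mul _ _ 5 (fun B hB => (h1 B hB).2.1.le)).trans ?_
    have := hsmall 𝓑 h𝓑
    omega
  refine ⟨𝓑.biUnion id, ?_, hΔ, ?_⟩
  · intro x hx
    rw [mem_biUnion] at hx
    obtain ⟨B, hB, hx⟩ := hx
    exact (h1 B hB).1 hx
  · intro g hg
    refine good_of_five K ?_ ?_ hg
    · have := le_card_sdiff (𝓑.biUnion id) H
      omega
    · intro B hB hB5
      by_contra hbad
      have hBn : B ∉ 𝓑 := by
        intro h
        obtain ⟨x, hx⟩ : B.Nonempty := card_pos.1 (by omega)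
        have := hB hx
        rw [mem_sdiff] at this
        exact this.2 (mem_biUnion.2 ⟨B, h, hx⟩)
      have hdis : ∀ B' ∈ 𝓑, _root_.Disjoint B B' := by
        intro B' hB'
        rw [disjoint_left]
        intro x hx hx'
        have := hB hx
        rw [mem_sdiff] at this
        exact this.2 (mem_biUnion.2 ⟨B', hB', hx'⟩)
      have h3 := hmax (insert B 𝓑) (by
        rw [hFam]
        refine ⟨?_, ?_⟩
        · intro B' hB'
          rcases mem_insert.1 hB' with rfl | hB'
          · exact ⟨hB.trans sdiff_subset, hB5, hbad⟩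
          · exact h1 B' hB'
        · intro B₁ hB₁ B₂ hB₂ hne
          rcases mem_insert.1 hB₁ with h5 | h5 <;> rcases mem_insert.1 hB₂ with h6 | h6
          · exact absurd (h5.trans h6.symm) hne
          · rw [h5]; exact hdis B₂ h6
          · rw [h6]; exact (hdis B₁ h5).symm
          · exact h2 B₁ h5 B₂ h6 hne)
      rw [card_insert_of_notMem hBn] at h3
      omega

end Pool.Agent.T9h47.SF
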