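import Mathlib
import Pool.Agent.T9h47.SF.Supp
import Pool.Agent.T9h47.SF.Defs

/-!
# Pseudo-valuations of symmetric circuits on partial matchings
-/

set_option autoImplicit false
set_option linter.unusedSectionVars false

namespace Pool.Agent.T9h47.SF

open Finset Equiv Equiv.Perm

/-! ### Automorphisms -/

section ext

variable {V : Type} {P : Pf V}

theorem Gt.map_map {V G : Type} (σ τ : Perm V) (α β : Perm G) (x : Gt V G) :
    (x.map τ β).map σ α = x.map (σ * τ) (α * β) := by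
  cases x with
  | var v => rfl
  | neg g => rfl
  | conj S => simp only [Gt.map, Finset.map_map]; rfl
  | disj S => simp only [Gt.map, Finset.map_map]; rfl

theorem Pf.Ext.mul {σ τ : Perm V} {α α' : Perm P.G} {β β' : Perm P.L} (h : P.Ext σ α β)
    (h' : P.Ext τ α' β') : P.Ext (σ * τ) (α * α') (β * β') := by
  refine ⟨fun g => ?_, fun l => ?_, fun l => ?_⟩
  · rw [Perm.mul_apply, h.1, h'.1, Gt.map_map]
  · rw [Perm.mul_apply, h.2.1, h'.2.1, Finset.map_map]; rfl
  · rw [Perm.mul_apply, h.2.2, h'.2.2, Finset.map_map]; rfl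

theorem map_one_emb {G : Type} (S : Finset G) : S.map (1 : Perm G).toEmbedding = S := by
  ext x
  rw [mem_map]
  constructor
  · rintro ⟨y, hy, rfl⟩; exact hy
  · intro h; exact ⟨x, h, rfl⟩

theorem Gt.map_one {V G : Type} (x : Gt V G) : x.map 1 1 = x := by
  cases x with
  | var v => rfl
  | neg g => rfl
  | conj S => simp only [Gt.map, map_one_emb]
  | disj S => simp only [Gt.map, map_one_emb]

theorem Gt.map_inj {V G : Type} (σ : Perm V) (α : Perm G) {x y : Gt V G}
    (h : x.map σ α = y.map σ α) : x = y := by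
  have h1 := congrArg (fun z => Gt.map σ⁻¹ α⁻¹ z) h
  simp only [Gt.map_map, inv_mul_cancel, Gt.map_one] at h1
  exact h1

theorem Pf.Ext.inv {σ : Perm V} {α : Perm P.G} {β : Perm P.L} (h : P.Ext σ α β) :
    P.Ext σ⁻¹ α⁻¹ β⁻¹ := by
  refine ⟨fun g => ?_, fun l => ?_, fun l => ?_⟩
  · apply Gt.map_inj σ α
    rw [← h.1, Gt.map_map]
    simp [Gt.map_one]
  · apply Finset.map_injective α.toEmbedding
    rw [← h.2.1, Finset.map_map]
    have : (α⁻¹).toEmbedding.trans α.toEmbedding = (1 : Perm P.G).toEmbedding := by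
      ext x; simp
    rw [this, map_one_emb]
    simp
  · apply Finset.map_injective α.toEmbedding
    rw [← h.2.2, Finset.map_map]
    have : (α⁻¹).toEmbedding.trans α.toEmbedding = (1 : Perm P.G).toEmbedding := by
      ext x; simp
    rw [this, map_one_emb]
    simp

end ext

variable {A B : Type} [Fintype A] [Fintype B] [DecidableEq A] [DecidableEq B]

theorem lf_mul (σ τ : Perm B) : lf (A := A) (σ * τ) = lf σ * lf τ := by
  ext x <;> rfl

theorem lf_inv (σ : Perm B) : lf (A := A) σ⁻¹ = (lf σ)⁻¹ := by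
  ext x <;> rfl

theorem lf_apply (σ : Perm B) (v : A × B) : lf σ v = (v.1, σ v.2) := rfl

/-- moving a partial matching -/
def mv (σ : Perm B) (M : Finset (A × B)) : Finset (A × B) := M.map (lf σ).toEmbedding

theorem mem_mv {σ : Perm B} {M : Finset (A × B)} {v : A × B} :
    v ∈ mv σ M ↔ ∃ w ∈ M, (w.1, σ w.2) = v := by
  unfold mv
  rw [mem_map]
  rfl

theorem mv_mv (σ τ : Perm B) (M : Finset (A × B)) : mv σ (mv τ M) = mv (σ * τ) M := by
  unfold mv
  rw [lf_mul, Finset.map_map]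
  rfl

theorem mv_one (M : Finset (A × B)) : mv 1 M = M := by
  ext v
  rw [mem_mv]
  constructor
  · rintro ⟨w, hw, rfl⟩; exact hw
  · intro h; exact ⟨v, h, rfl⟩

theorem mv_inv_mv (σ : Perm B) (M : Finset (A × B)) : mv σ⁻¹ (mv σ M) = M := by
  rw [mv_mv, inv_mul_cancel, mv_one]

theorem mv_mv_inv (σ : Perm B) (M : Finset (A × B)) : mv σ (mv σ⁻¹ M) = M := by
  rw [mv_mv, mul_inv_cancel, mv_one]

theorem mv_union (σ : Perm B) (M M' : Finset (A × B)) : mv σ (M ∪ M') = mv σ M ∪ mv σ M' :=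
  Finset.map_union _ _

theorem card_mv (σ : Perm B) (M : Finset (A × B)) : (mv σ M).card = M.card := card_map _

/-- the holes of a partial matching -/
def dm (M : Finset (A × B)) : Finset B := M.image Prod.snd

theorem mem_dm {M : Finset (A × B)} {j : B} : j ∈ dm M ↔ ∃ i, (i, j) ∈ M := by
  unfold dm
  rw [mem_image]
  constructor
  · rintro ⟨⟨i, j'⟩, h, rfl⟩; exact ⟨i, h⟩
  · rintro ⟨i, h⟩; exact ⟨(i, j), h, rfl⟩

theorem card_dm_le (M : Finset (A × B)) : (dm M).card ≤ M.card := card_image_le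

theorem mem_dm_mv {σ : Perm B} {M : Finset (A × B)} {j : B} : j ∈ dm (mv σ M) ↔ σ⁻¹ j ∈ dm M := by
  rw [mem_dm, mem_dm]
  constructor
  · rintro ⟨i, hi⟩
    obtain ⟨w, hw, h1⟩ := mem_mv.1 hi
    rw [Prod.mk.injEq] at h1
    refine ⟨w.1, ?_⟩
    rw [← h1.2]
    simpa using hw
  · rintro ⟨i, hi⟩
    refine ⟨i, mem_mv.2 ⟨_, hi, ?_⟩⟩
    simp

variable (P : Pf (A × B)) (H : Finset B) (e : B → A) (d : ℕ)

/-- partial matchings of the holes in `H` with the pigeons which are not matched by `e` -/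
def MM (M : Finset (A × B)) : Prop :=
  (∀ p ∈ M, p.2 ∈ H ∧ ∀ j, j ∉ H → e j ≠ p.1) ∧ (∀ p ∈ M, ∀ q ∈ M, p.1 = q.1 → p = q) ∧
    ∀ p ∈ M, ∀ q ∈ M, p.2 = q.2 → p = q

/-- the holes of `M` support the formula `g` -/
def CovG (g : P.G) (M : Finset (A × B)) : Prop :=
  ∀ σ : Perm B, EvOn (H \ dm M) σ → ∃ α β, P.Ext (lf σ) α β ∧ α g = g

/-- the holes of `M` support the sequent `l` -/
def CovL (l : P.L) (M : Finset (A × B)) : Prop :=
  ∀ σ : Perm B, EvOn (H \ dm M) σ → ∃ α β, P.Ext (lf σ) α β ∧ β l = l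

/-- The pseudo-valuation. -/
def val (g : P.G) (M : Finset (A × B)) : Prop :=
  match _hg : P.gate g with
  | .var v => (v.2 ∉ H ∧ e v.2 = v.1) ∨ v ∈ M
  | .neg h => ∀ M', M'.card ≤ d → CovG P H h M' → MM H e (M ∪ M') → ¬ val h M'
  | .conj S => ∀ h, h ∈ S → ∀ M', M'.card ≤ d → CovG P H h M' → MM H e (M ∪ M') → val h M'
  | .disj S => ∃ h, ∃ _ : h ∈ S, ∃ M', M'.card ≤ d ∧ CovG P H h M' ∧ MM H e (M ∪ M') ∧ val h M'
termination_by P.grank g
decreasing_by
  all_goals
    apply P.grank_lt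
    rw [_hg]
    first
      | rfl
      | assumption

theorem val_var {g : P.G} {v : A × B} (hg : P.gate g = .var v) (M : Finset (A × B)) :
    val P H e d g M ↔ (v.2 ∉ H ∧ e v.2 = v.1) ∨ v ∈ M := by
  rw [val]
  split
  · rename_i v' h
    rw [hg] at h
    cases h
    exact Iff.rfl
  all_goals rename_i h; rw [hg] at h; cases h

theorem val_neg {g h : P.G} (hg : P.gate g = .neg h) (M : Finset (A × B)) :
    val P H e d g M ↔ ∀ M', M'.card ≤ d → CovG P H h M' → MM H e (M ∪ M') →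
      ¬ val P H e d h M' := by
  rw [val]
  split
  · rename_i h; rw [hg] at h; cases h
  · rename_i h' h
    rw [hg] at h
    cases h
    exact Iff.rfl
  all_goals rename_i h; rw [hg] at h; cases h

theorem val_conj {g : P.G} {S : Finset P.G} (hg : P.gate g = .conj S) (M : Finset (A × B)) :
    val P H e d g M ↔ ∀ h, h ∈ S → ∀ M', M'.card ≤ d → CovG P H h M' → MM H e (M ∪ M') →
      val P H e d h M' := by
  rw [val]
  split
  · rename_i h; rw [hg] at h; cases h
  · rename_i h; rw [hg] at h; cases h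
  · rename_i h' h
    rw [hg] at h
    cases h
    exact Iff.rfl
  all_goals rename_i h; rw [hg] at h; cases h

theorem val_disj {g : P.G} {S : Finset P.G} (hg : P.gate g = .disj S) (M : Finset (A × B)) :
    val P H e d g M ↔ ∃ h, h ∈ S ∧ ∃ M', M'.card ≤ d ∧ CovG P H h M' ∧ MM H e (M ∪ M') ∧
      val P H e d h M' := by
  rw [val]
  split
  · rename_i h; rw [hg] at h; cases h
  · rename_i h; rw [hg] at h; cases h
  · rename_i h; rw [hg] at h; cases h
  · rename_i h' h
    rw [hg] at h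
    cases h
    simp only [exists_prop]

end Pool.Agent.T9h47.SF
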