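import Mathlib
import Pool.Agent.T9h47.SF.Sound

/-!
# Soundness of the rules, and the lower bound
-/

set_option autoImplicit false
set_option linter.unusedSectionVars false

namespace Pool.Agent.T9h47.SF

open Finset Equiv Equiv.Perm

variable {A B : Type} [Fintype A] [Fintype B] [DecidableEq A] [DecidableEq B]
variable {P : Pf (A × B)} {H : Finset B} {e : B → A} {d : ℕ}

/-- Covering a set of holes. -/
theorem cover (_he : ∀ j j', j ∉ H → j' ∉ H → e j = e j' → j = j')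
    (hAB : Fintype.card B ≤ Fintype.card A) {Δ : Finset B} (hΔ : Δ ⊆ H) (hΔd : Δ.card ≤ d)
    {N : Finset (A × B)} (hN : MM H e N) (hc : N.card + d ≤ H.card) :
    ∃ M : Finset (A × B), M.card ≤ d ∧ Δ ⊆ dm M ∧ MM H e (N ∪ M) := by
  classical
  rcases Δ.eq_empty_or_nonempty with rfl | ⟨j₀, hj₀⟩
  · exact ⟨∅, by simp, by simp, by rw [union_empty]; exact hN⟩
  have hA : Nonempty A := by
    rw [← Fintype.card_pos_iff]
    have : 0 < Fintype.card B := Fintype.card_pos_iff.2 ⟨j₀⟩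
    omega
  obtain ⟨T, hT⟩ : ∃ T : Finset A, T = (univ \ ((univ \ H).image e)) \ N.image Prod.fst := ⟨_, rfl⟩
  have hTc : Δ.card ≤ T.card := by
    have h1 := le_card_sdiff (N.image Prod.fst) (univ \ ((univ \ H).image e))
    have h2 := le_card_sdiff ((univ \ H).image e) (univ : Finset A)
    have h3 : ((univ \ H).image e).card ≤ (univ \ H).card := card_image_le
    have h4 : (univ \ H : Finset B).card = Fintype.card B - H.card := by
      rw [card_sdiff_of_subset (subset_univ _), card_univ]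
    have h5 : (N.image Prod.fst).card ≤ N.card := card_image_le
    have h6 : H.card ≤ Fintype.card B := card_le_univ _
    rw [card_univ] at h2
    rw [hT]
    omega
  obtain ⟨fr, hfr1, hfr2⟩ := exists_inj Δ T hTc hA.some
  have hfr1' : ∀ j ∈ Δ, (∀ k, k ∉ H → e k ≠ fr j) ∧ ∀ k, (fr j, k) ∉ N := by
    intro j hj
    have := hfr1 j hj
    rw [hT, mem_sdiff, mem_sdiff, mem_image, mem_image] at this
    obtain ⟨⟨_, h1⟩, h2⟩ := this
    refine ⟨fun k hk hek => h1 ⟨k, by simp [hk], hek⟩, fun k hk => h2 ⟨_, hk, rfl⟩⟩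
  have hpg : ∀ j, ∃ i, j ∈ dm N → (i, j) ∈ N := by
    intro j
    by_cases hj : j ∈ dm N
    · obtain ⟨i, hi⟩ := mem_dm.1 hj
      exact ⟨i, fun _ => hi⟩
    · exact ⟨hA.some, fun h => absurd h hj⟩
  choose pg hpg using hpg
  obtain ⟨F, hF⟩ : ∃ F : B → A × B, F = fun j => (if j ∈ dm N then pg j else fr j, j) := ⟨_, rfl⟩
  have hF1 : ∀ j, j ∈ dm N → F j ∈ N := by
    intro j hj
    rw [hF]
    simp only [hj, if_true]
    exact hpg j hj
  have hF2 : ∀ j, j ∉ dm N → F j = (fr j, j) := by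
    intro j hj
    rw [hF]
    simp only [hj, if_false]
  refine ⟨Δ.image F, card_image_le.trans hΔd, ?_, ?_⟩
  · intro j hj
    rw [mem_dm]
    exact ⟨_, mem_image.2 ⟨j, hj, by rw [hF]⟩⟩
  · have hmem : ∀ p ∈ N ∪ Δ.image F, p ∈ N ∨ ∃ j ∈ Δ, p = (fr j, j) ∧ j ∉ dm N := by
      intro p hp
      rcases mem_union.1 hp with hp | hp
      · exact Or.inl hp
      · obtain ⟨j, hj, rfl⟩ := mem_image.1 hp
        by_cases h : j ∈ dm N
        · exact Or.inl (hF1 j h)
        · exact Or.inr ⟨j, hj, hF2 j h, h⟩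
    refine ⟨?_, ?_, ?_⟩
    · intro p hp
      rcases hmem p hp with h | ⟨j, hj, rfl, _⟩
      · exact hN.1 p h
      · exact ⟨hΔ hj, (hfr1' j hj).1⟩
    · intro p hp q hq hpq
      rcases hmem p hp with h | ⟨j, hj, rfl, _⟩ <;> rcases hmem q hq with h' | ⟨j', hj', rfl, _⟩
      · exact hN.2.1 p h q h' hpq
      · exact absurd (show (fr j', p.2) ∈ N by rw [← show p.1 = fr j' from hpq]; exact h)
          ((hfr1' j' hj').2 _)
      · exact absurd (show (fr j, q.2) ∈ N by rw [show fr j = q.1 from hpq]; exact h')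
          ((hfr1' j hj).2 _)
      · rw [hfr2 j hj j' hj' hpq]
    · intro p hp q hq hpq
      rcases hmem p hp with h | ⟨j, hj, rfl, h1⟩ <;> rcases hmem q hq with h' | ⟨j', hj', rfl, h1'⟩
      · exact hN.2.2 p h q h' hpq
      · exact absurd (mem_dm.2 ⟨p.1, by rw [← show p.2 = j' from hpq]; exact h⟩) h1'
      · exact absurd (mem_dm.2 ⟨q.1, by rw [show j = q.2 from hpq]; exact h'⟩) h1
      · rw [show j = j' from hpq]

theorem evOn_fix {M : Finset (A × B)} {σ : Perm B} (h : EvOn (H \ dm M) σ) :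
    ∀ j, j ∉ H → σ j = j := fun j hj => h.1 j (fun h' => hj (mem_sdiff.1 h').1)

theorem mv_fix {M : Finset (A × B)} {σ : Perm B} (h : EvOn (H \ dm M) σ) : mv σ M = M := by
  ext p
  rw [mem_mv]
  have h1 : ∀ w ∈ M, (w.1, σ w.2) = w := by
    intro w hw
    rw [h.1 w.2 (fun h' => (mem_sdiff.1 h').2 (mem_dm.2 ⟨w.1, hw⟩))]
  constructor
  · rintro ⟨w, hw, rfl⟩; rw [h1 w hw]; exact hw
  · intro hp; exact ⟨p, hp, h1 p hp⟩

/-- A variable is only supported by its hole. -/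
theorem var_dm {g : P.G} {v : A × B} (hg : P.gate g = .var v) (hv : v.2 ∈ H)
    {M : Finset (A × B)} (hM : M.card + 3 ≤ H.card) (hc : CovG P H g M) : v.2 ∈ dm M := by
  by_contra hcon
  obtain ⟨U, hU⟩ : ∃ U, U = H \ dm M := ⟨_, rfl⟩
  have h1 : 3 ≤ U.card := by
    have h2 := le_card_sdiff (dm M) H
    have h3 := card_dm_le M
    rw [hU]; omega
  have hvU : v.2 ∈ U := by rw [hU, mem_sdiff]; exact ⟨hv, hcon⟩
  obtain ⟨b, hb, hbv⟩ : ∃ b ∈ U, b ≠ v.2 := by
    by_contra h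
    push Not at h
    have : U ⊆ {v.2} := fun x hx => by rw [mem_singleton]; exact h x hx
    have := card_le_card this
    simp at this
    omega
  obtain ⟨σ, hσ1, hσ2⟩ := exists_even_ext U {v.2} (fun _ => b) (by simpa using hvU)
    (fun _ _ => hb) (by
      intro x hx x' hx' _
      rw [mem_singleton] at hx hx'
      rw [hx, hx']) (by simpa using h1)
  rw [hU] at hσ1
  obtain ⟨α, β, h2, h3⟩ := hc σ hσ1
  have h4 := h2.1 g
  rw [h3, hg] at h4
  simp only [Gt.map, Gt.var.injEq, lf_apply] at h4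
  have h5 := congrArg Prod.snd h4
  simp only at h5
  rw [hσ2 v.2 (mem_singleton_self _)] at h5
  exact hbv h5.symm

/-- Compatible partial matchings which support a formula give the same value. -/
theorem val_compat (hd : 3 * d + 3 ≤ H.card) {g : P.G} {M₁ M₂ : Finset (A × B)}
    (h1 : M₁.card ≤ d) (h2 : M₂.card ≤ d) (hc1 : CovG P H g M₁) (hc2 : CovG P H g M₂)
    (hMM : MM H e (M₁ ∪ M₂)) (hv : val P H e d g M₁) : val P H e d g M₂ := by
  have hMM' : MM H e (M₂ ∪ M₁) := by rw [union_comm]; exact hMM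
  cases hx : P.gate g with
  | var v =>
    rw [val_var P H e d hx] at hv ⊢
    rcases hv with hv | hv
    · exact Or.inl hv
    · right
      have h3 := (hMM.1 v (mem_union_left _ hv)).1
      obtain ⟨i, hi⟩ := mem_dm.1 (var_dm hx h3 (by omega) hc2)
      have h4 := hMM.2.2 v (mem_union_left _ hv) _ (mem_union_right _ hi) rfl
      rw [h4]; exact hi
  | neg h =>
    rw [val_neg P H e d hx] at hv ⊢
    intro M' hM' hcM' hMM2 hval
    obtain ⟨σ, hσ1, hσ2⟩ := move hMM2 hMM' (by omega)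
    obtain ⟨α, β, h3, h4⟩ := hc2 σ hσ1
    have hσ := evOn_fix hσ1
    have h5 : α h = h := by
      have := h3.1 g
      rw [h4, hx] at this
      simp only [Gt.map, Gt.neg.injEq] at this
      exact this.symm
    refine hv (mv σ M') (by rw [card_mv]; exact hM') ?_ (MM_sub hσ2 ?_) ?_
    · have := covG_mv hσ h3 hcM'
      rw [h5] at this
      exact this
    · exact union_subset_union subset_union_right (Subset.refl _)
    · have := (val_mv (d := d) (e := e) hσ h3 _ h le_rfl M').2 hval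
      rw [h5] at this
      exact this
  | conj S =>
    rw [val_conj P H e d hx] at hv ⊢
    intro h hh M' hM' hcM' hMM2
    obtain ⟨σ, hσ1, hσ2⟩ := move hMM2 hMM' (by omega)
    obtain ⟨α, β, h3, h4⟩ := hc2 σ hσ1
    have hσ := evOn_fix hσ1
    have h5 : α h ∈ S := by
      have := h3.1 g
      rw [h4, hx] at this
      simp only [Gt.map, Gt.conj.injEq] at this
      rw [this]
      exact mem_map_of_mem _ hh
    rw [← val_mv (d := d) (e := e) hσ h3 _ h le_rfl M']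
    exact hv (α h) h5 (mv σ M') (by rw [card_mv]; exact hM') (covG_mv hσ h3 hcM')
      (MM_sub hσ2 (union_subset_union subset_union_right (Subset.refl _)))
  | disj S =>
    rw [val_disj P H e d hx] at hv ⊢
    obtain ⟨h, hh, M', hM', hcM', hMM2, hval⟩ := hv
    obtain ⟨σ, hσ1, hσ2⟩ := move hMM2 hMM (by omega)
    obtain ⟨α, β, h3, h4⟩ := hc1 σ hσ1
    have hσ := evOn_fix hσ1
    have h5 : α h ∈ S := by
      have := h3.1 g
      rw [h4, hx] at this
      simp only [Gt.map, Gt.disj.injEq] at this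
      rw [this]
      exact mem_map_of_mem _ hh
    exact ⟨α h, h5, mv σ M', by rw [card_mv]; exact hM', covG_mv hσ h3 hcM',
      MM_sub hσ2 (union_subset_union subset_union_right (Subset.refl _)),
      (val_mv (d := d) (e := e) hσ h3 _ h le_rfl M').2 hval⟩

theorem val_compat_iff (hd : 3 * d + 3 ≤ H.card) {g : P.G} {M₁ M₂ : Finset (A × B)}
    (h1 : M₁.card ≤ d) (h2 : M₂.card ≤ d) (hc1 : CovG P H g M₁) (hc2 : CovG P H g M₂)
    (hMM : MM H e (M₁ ∪ M₂)) : val P H e d g M₁ ↔ val P H e d g M₂ :=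
  ⟨val_compat hd h1 h2 hc1 hc2 hMM,
    val_compat hd h2 h1 hc2 hc1 (by rw [union_comm]; exact hMM)⟩

/-! ### Sequents -/

/-- the sequent has a witness which is compatible with `N` -/
def Wit (P : Pf (A × B)) (H : Finset B) (e : B → A) (d : ℕ) (X Y : Set P.G)
    (N : Finset (A × B)) : Prop :=
  (∃ g ∈ Y, ∃ M, M.card ≤ d ∧ CovG P H g M ∧ MM H e (N ∪ M) ∧ val P H e d g M) ∨
  ∃ g ∈ X, ∃ M, M.card ≤ d ∧ CovG P H g M ∧ MM H e (N ∪ M) ∧ ¬ val P H e d g M

/-- truth of a sequent -/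
def Tru (P : Pf (A × B)) (H : Finset B) (e : B → A) (d : ℕ) (l : P.L) : Prop :=
  ∀ M, M.card ≤ d → CovL P H l M → MM H e M → Wit P H e d (P.left l) (P.right l) M

theorem Wit.mono {X Y X' Y' : Set P.G} {N : Finset (A × B)} (h : Wit P H e d X Y N)
    (hX : ∀ g ∈ X, g ∈ X') (hY : ∀ g ∈ Y, g ∈ Y') : Wit P H e d X' Y' N := by
  rcases h with ⟨g, hg, h⟩ | ⟨g, hg, h⟩
  · exact Or.inl ⟨g, hY g hg, h⟩
  · exact Or.inr ⟨g, hX g hg, h⟩

theorem Wit.sub {X Y : Set P.G} {N N' : Finset (A × B)} (h : Wit P H e d X Y N) (hN : N' ⊆ N) :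
    Wit P H e d X Y N' := by
  rcases h with ⟨g, hg, M, h1, h2, h3, h4⟩ | ⟨g, hg, M, h1, h2, h3, h4⟩
  · exact Or.inl ⟨g, hg, M, h1, h2, MM_sub h3 (union_subset_union hN (Subset.refl _)), h4⟩
  · exact Or.inr ⟨g, hg, M, h1, h2, MM_sub h3 (union_subset_union hN (Subset.refl _)), h4⟩

/-- the hypotheses on the supports -/
structure Hyp (P : Pf (A × B)) (H : Finset B) (e : B → A) (d : ℕ) : Prop where
  he : ∀ j j', j ∉ H → j' ∉ H → e j = e j' → j = j'
  hAB : Fintype.card B < Fintype.card A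
  hd : 5 * d + 3 ≤ H.card
  supG : ∀ g : P.G, ∃ Δ ⊆ H, Δ.card ≤ d ∧ ∀ σ, EvOn (H \ Δ) σ → ∃ α β, P.Ext (lf σ) α β ∧ α g = g
  supL : ∀ l : P.L, ∃ Δ ⊆ H, Δ.card ≤ d ∧ ∀ σ, EvOn (H \ Δ) σ → ∃ α β, P.Ext (lf σ) α β ∧ β l = l

theorem Hyp.coverG (hyp : Hyp P H e d) (g : P.G) {N : Finset (A × B)} (hN : MM H e N)
    (hc : N.card + d ≤ H.card) : ∃ M, M.card ≤ d ∧ CovG P H g M ∧ MM H e (N ∪ M) := by
  obtain ⟨Δ, h1, h2, h3⟩ := hyp.supG g
  obtain ⟨M, h4, h5, h6⟩ := cover hyp.he hyp.hAB.le h1 h2 hN hc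
  exact ⟨M, h4, fun σ hσ => h3 σ (hσ.mono (sdiff_subset_sdiff (Subset.refl _) h5)), h6⟩

theorem Hyp.coverL (hyp : Hyp P H e d) (l : P.L) {N : Finset (A × B)} (hN : MM H e N)
    (hc : N.card + d ≤ H.card) : ∃ M, M.card ≤ d ∧ CovL P H l M ∧ MM H e (N ∪ M) := by
  obtain ⟨Δ, h1, h2, h3⟩ := hyp.supL l
  obtain ⟨M, h4, h5, h6⟩ := cover hyp.he hyp.hAB.le h1 h2 hN hc
  exact ⟨M, h4, fun σ hσ => h3 σ (hσ.mono (sdiff_subset_sdiff (Subset.refl _) h5)), h6⟩

/-- true sequents have witnesses compatible with larger partial matchings -/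
theorem Hyp.wit (hyp : Hyp P H e d) {l : P.L} (hl : Tru P H e d l) {N : Finset (A × B)}
    (hN : MM H e N) (hc : N.card ≤ 3 * d) : Wit P H e d (P.left l) (P.right l) N := by
  have hd := hyp.hd
  obtain ⟨M, h1, h2, h3⟩ := hyp.coverL l hN (by omega)
  have h3' : MM H e (M ∪ N) := by rw [union_comm]; exact h3
  rcases hl M h1 h2 (MM_sub h3 subset_union_right) with
    ⟨g, hg, M', h4, h5, h6, h7⟩ | ⟨g, hg, M', h4, h5, h6, h7⟩
  · obtain ⟨σ, hσ1, hσ2⟩ := move h6 h3' (by omega)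
    obtain ⟨α, β, h8, h9⟩ := h2 σ hσ1
    have hσ := evOn_fix hσ1
    left
    refine ⟨α g, ?_, mv σ M', by rw [card_mv]; exact h4, covG_mv hσ h8 h5,
      MM_sub hσ2 (union_subset_union subset_union_right (Subset.refl _)),
      (val_mv (d := d) (e := e) hσ h8 _ g le_rfl M').2 h7⟩
    have := h8.2.2 l
    rw [h9] at this
    rw [mem_coe, this]
    exact mem_map_of_mem _ hg
  · obtain ⟨σ, hσ1, hσ2⟩ := move h6 h3' (by omega)
    obtain ⟨α, β, h8, h9⟩ := h2 σ hσ1
    have hσ := evOn_fix hσ1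
    right
    refine ⟨α g, ?_, mv σ M', by rw [card_mv]; exact h4, covG_mv hσ h8 h5,
      MM_sub hσ2 (union_subset_union subset_union_right (Subset.refl _)), ?_⟩
    · have := h8.2.1 l
      rw [h9] at this
      rw [mem_coe, this]
      exact mem_map_of_mem _ hg
    · rw [val_mv (d := d) (e := e) hσ h8 _ g le_rfl M']
      exact h7

end Pool.Agent.T9h47.SF
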