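import Mathlib
import Pool.Agent.T9h47.SF.Sound2

/-!
# All rules preserve the truth
-/

set_option autoImplicit false
set_option linter.unusedSectionVars false

namespace Pool.Agent.T9h47.SF

open Finset Equiv Equiv.Perm

variable {A B : Type} [Fintype A] [Fintype B] [DecidableEq A] [DecidableEq B]
variable {P : Pf (A × B)} {H : Finset B} {e : B → A} {d : ℕ}

theorem exists_hole (hd : d < H.card) {M : Finset (A × B)} (hM : M.card ≤ d) (hMM : MM H e M)
    {i : A} (hi : ∀ j, j ∉ H → e j ≠ i) : ∃ j ∈ H, MM H e (M ∪ {(i, j)}) := by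
  by_cases h : ∃ j, (i, j) ∈ M
  · obtain ⟨j, hj⟩ := h
    refine ⟨j, (hMM.1 _ hj).1, ?_⟩
    rw [union_eq_left.2 (by simpa using hj)]
    exact hMM
  · push Not at h
    obtain ⟨j, hj⟩ : (H \ dm M).Nonempty := by
      rw [← card_pos]
      have h1 := le_card_sdiff (dm M) H
      have h2 := card_dm_le M
      omega
    rw [mem_sdiff] at hj
    refine ⟨j, hj.1, ?_⟩
    have hmem : ∀ p ∈ M ∪ {(i, j)}, p ∈ M ∨ p = (i, j) := by
      intro p hp
      rw [mem_union, mem_singleton] at hp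
      exact hp
    refine ⟨?_, ?_, ?_⟩
    · intro p hp
      rcases hmem p hp with h1 | rfl
      · exact hMM.1 p h1
      · exact ⟨hj.1, hi⟩
    · intro p hp q hq hpq
      rcases hmem p hp with h1 | rfl <;> rcases hmem q hq with h2 | rfl
      · exact hMM.2.1 p h1 q h2 hpq
      · exact absurd (show (i, p.2) ∈ M by rw [← show p.1 = i from hpq]; exact h1) (h _)
      · exact absurd (show (i, q.2) ∈ M by rw [show i = q.1 from hpq]; exact h2) (h _)
      · rfl
    · intro p hp q hq hpq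
      rcases hmem p hp with h1 | rfl <;> rcases hmem q hq with h2 | rfl
      · exact hMM.2.2 p h1 q h2 hpq
      · exact absurd (mem_dm.2 ⟨p.1, by rw [← show p.2 = j from hpq]; exact h1⟩) hj.2
      · exact absurd (mem_dm.2 ⟨q.1, by rw [show j = q.2 from hpq]; exact h2⟩) hj.2
      · rfl

theorem exists_pigeon (hyp : Hyp P H e d) {M : Finset (A × B)} (hM : M.card ≤ d)
    (hMM : MM H e M) {j : B} (hj : j ∈ H) : ∃ i, MM H e (M ∪ {(i, j)}) := by
  have hd := hyp.hd
  obtain ⟨M', h1, h2, h3⟩ := cover (d := 1) hyp.he hyp.hAB.le (Δ := {j}) (by simpa using hj)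
    (by simp) hMM (by omega)
  obtain ⟨i, hi⟩ := mem_dm.1 (h2 (mem_singleton_self j))
  refine ⟨i, MM_sub h3 (union_subset_union (Subset.refl _) ?_)⟩
  simpa using hi

/-- the value of a variable -/
theorem Hyp.val_pair (hyp : Hyp P H e d) {g : P.G} {i : A} {j : B} (hg : P.gate g = .var (i, j))
    (hj : j ∈ H) {N : Finset (A × B)} (hN : MM H e (N ∪ {(i, j)})) (hc : N.card ≤ d) :
    ∃ M, M.card ≤ d ∧ CovG P H g M ∧ MM H e (N ∪ M) ∧ val P H e d g M := by
  have hd := hyp.hd
  obtain ⟨M, h1, h2, h3⟩ := hyp.coverG g hN (by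
    have h4 := card_union_le N {(i, j)}
    rw [card_singleton] at h4
    omega)
  refine ⟨M, h1, h2, MM_sub h3 (union_subset_union subset_union_left (Subset.refl _)), ?_⟩
  rw [val_var P H e d hg]
  right
  obtain ⟨i', hi'⟩ := mem_dm.1 (var_dm hg hj (by omega) h2)
  have h4 := h3.2.2 (i, j) (mem_union_left _ (mem_union_right _ (mem_singleton_self _))) _
    (mem_union_right _ hi') rfl
  rw [h4]; exact hi'

theorem Hyp.moveG (hyp : Hyp P H e d) {g : P.G} {Mg M M₁ : Finset (A × B)}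
    (hc : CovG P H g Mg) (h1 : Mg.card ≤ d) (h2 : M.card ≤ d) (h3 : M₁.card ≤ d)
    (h4 : MM H e (M ∪ Mg)) (h5 : MM H e (Mg ∪ M₁)) :
    ∃ (σ : Perm B) (α : Perm P.G) (β : Perm P.L), (∀ j, j ∉ H → σ j = j) ∧ P.Ext (lf σ) α β ∧
      α g = g ∧ MM H e (M ∪ Mg ∪ mv σ M₁) := by
  have hd := hyp.hd
  obtain ⟨σ, hσ1, hσ2⟩ := move h5 (by rw [union_comm]; exact h4) (by omega)
  obtain ⟨α, β, h6, h7⟩ := hc σ hσ1
  exact ⟨σ, α, β, evOn_fix hσ1, h6, h7, by rw [union_comm M Mg]; exact hσ2⟩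

theorem sound (hyp : Hyp P H e d) (l : P.L) (hr : P.Rule {c | Php A B c} l)
    (ih : ∀ l', P.lrank l' < P.lrank l → Tru P H e d l') : Tru P H e d l := by
  intro M hM hcM hMM
  by_contra hno
  have hd := hyp.hd
  have hR : ∀ g ∈ P.right l, ∀ M', M'.card ≤ d → CovG P H g M' → MM H e (M ∪ M') →
      ¬ val P H e d g M' := fun g hg M' h1 h2 h3 h4 => hno (Or.inl ⟨g, hg, M', h1, h2, h3, h4⟩)
  have hL : ∀ g ∈ P.left l, ∀ M', M'.card ≤ d → CovG P H g M' → MM H e (M ∪ M') →
      val P H e d g M' := fun g hg M' h1 h2 h3 => by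
    by_contra h4
    exact hno (Or.inr ⟨g, hg, M', h1, h2, h3, h4⟩)
  -- witnesses of the premises
  have prem : ∀ (l' : P.L) (X Y : Set P.G) (N : Finset (A × B)), P.Prem l l' X Y → MM H e N →
      N.card ≤ 3 * d → Wit P H e d X Y N := by
    intro l' X Y N h1 h2 h3
    exact (hyp.wit (ih l' h1.1) h2 h3).mono (fun g hg => h1.2.1 g hg) (fun g hg => h1.2.2 g hg)
  have rightOnly : ∀ (h : P.G) (N : Finset (A × B)), M ⊆ N →
      Wit P H e d (P.left l) (insert h (P.right l : Set P.G)) N →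
      ∃ M', M'.card ≤ d ∧ CovG P H h M' ∧ MM H e (N ∪ M') ∧ val P H e d h M' := by
    intro h N hMN hw
    rcases hw with ⟨g, hg, M', h1, h2, h3, h4⟩ | ⟨g, hg, M', h1, h2, h3, h4⟩
    · rcases hg with rfl | hg
      · exact ⟨M', h1, h2, h3, h4⟩
      · exact absurd h4 (hR g hg M' h1 h2 (MM_sub h3 (union_subset_union hMN (Subset.refl _))))
    · exact absurd (hL g hg M' h1 h2 (MM_sub h3 (union_subset_union hMN (Subset.refl _)))) h4
  have leftOnly : ∀ (h : P.G) (N : Finset (A × B)), M ⊆ N →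
      Wit P H e d (insert h (P.left l : Set P.G)) (P.right l) N →
      ∃ M', M'.card ≤ d ∧ CovG P H h M' ∧ MM H e (N ∪ M') ∧ ¬ val P H e d h M' := by
    intro h N hMN hw
    rcases hw with ⟨g, hg, M', h1, h2, h3, h4⟩ | ⟨g, hg, M', h1, h2, h3, h4⟩
    · exact absurd h4 (hR g hg M' h1 h2 (MM_sub h3 (union_subset_union hMN (Subset.refl _))))
    · rcases hg with rfl | hg
      · exact ⟨M', h1, h2, h3, h4⟩
      · exact absurd (hL g hg M' h1 h2 (MM_sub h3 (union_subset_union hMN (Subset.refl _)))) h4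
  have compat : ∀ {g : P.G} {M₁ M₂ : Finset (A × B)}, M₁.card ≤ d → M₂.card ≤ d →
      CovG P H g M₁ → CovG P H g M₂ → MM H e (M₁ ∪ M₂) →
      (val P H e d g M₁ ↔ val P H e d g M₂) := fun h1 h2 h3 h4 h5 =>
    val_compat_iff (by omega) h1 h2 h3 h4 h5
  have c2 : ∀ {M₁ : Finset (A × B)}, M₁.card ≤ d → (M ∪ M₁).card ≤ 3 * d := by
    intro M₁ h1
    have := card_union_le M M₁
    omega
  have c3 : ∀ {M₁ M₂ : Finset (A × B)}, M₁.card ≤ d → M₂.card ≤ d →
      (M ∪ M₁ ∪ M₂).card ≤ 3 * d := by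
    intro M₁ M₂ h1 h2
    have h3 := card_union_le M M₁
    have h4 := card_union_le (M ∪ M₁) M₂
    omega
  cases hr with
  | ax c hc hc1 hc2 =>
    obtain ⟨c1, c2'⟩ := c
    have hc' : Php A B (c1, c2') := hc
    cases hc' with
    | pigeon i =>
      by_cases hi : ∃ j, j ∉ H ∧ e j = i
      · obtain ⟨j, hj, hji⟩ := hi
        obtain ⟨g, hg1, hg2⟩ := hc2 (i, j) (by simp)
        obtain ⟨M', h1, h2, h3⟩ := hyp.coverG g hMM (by omega)
        refine hR g hg1 M' h1 h2 h3 ?_
        rw [val_var P H e d hg2]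
        exact Or.inl ⟨hj, hji⟩
      · push Not at hi
        obtain ⟨j, hj, hN⟩ := exists_hole (by omega) hM hMM hi
        obtain ⟨g, hg1, hg2⟩ := hc2 (i, j) (by simp)
        obtain ⟨M', h1, h2, h3, h4⟩ := hyp.val_pair hg2 hj hN hM
        exact hR g hg1 M' h1 h2 h3 h4
    | hole j =>
      by_cases hj : j ∈ H
      · obtain ⟨i, hN⟩ := exists_pigeon hyp hM hMM hj
        obtain ⟨g, hg1, hg2⟩ := hc2 (i, j) (by simp)
        obtain ⟨M', h1, h2, h3, h4⟩ := hyp.val_pair hg2 hj hN hM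
        exact hR g hg1 M' h1 h2 h3 h4
      · obtain ⟨g, hg1, hg2⟩ := hc2 (e j, j) (by simp)
        obtain ⟨M', h1, h2, h3⟩ := hyp.coverG g hMM (by omega)
        refine hR g hg1 M' h1 h2 h3 ?_
        rw [val_var P H e d hg2]
        exact Or.inl ⟨hj, rfl⟩
    | inj i i' j hne =>
      obtain ⟨g, hg1, hg2⟩ := hc1 (i, j) (by simp)
      obtain ⟨g', hg1', hg2'⟩ := hc1 (i', j) (by simp)
      obtain ⟨M₁, h1, h2, h3⟩ := hyp.coverG g hMM (by omega)
      obtain ⟨M₂, h4, h5, h6⟩ := hyp.coverG g' h3 (by have := c2 h1; omega)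
      have h7 := hL g hg1 M₁ h1 h2 h3
      have h8 := hL g' hg1' M₂ h4 h5
        (MM_sub h6 (union_subset_union subset_union_left (Subset.refl _)))
      rw [val_var P H e d hg2] at h7
      rw [val_var P H e d hg2'] at h8
      rcases h7 with h7 | h7 <;> rcases h8 with h8 | h8
      · exact hne (h7.2.symm.trans h8.2)
      · exact h7.1 (h6.1 _ (mem_union_right _ h8)).1
      · exact h8.1 (h3.1 _ (mem_union_right _ h7)).1
      · have := h6.2.2 _ (mem_union_left _ (mem_union_right _ h7)) _ (mem_union_right _ h8) rfl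
        exact hne (congrArg Prod.fst this)
    | fn i j j' hne =>
      obtain ⟨g, hg1, hg2⟩ := hc1 (i, j) (by simp)
      obtain ⟨g', hg1', hg2'⟩ := hc1 (i, j') (by simp)
      obtain ⟨M₁, h1, h2, h3⟩ := hyp.coverG g hMM (by omega)
      obtain ⟨M₂, h4, h5, h6⟩ := hyp.coverG g' h3 (by have := c2 h1; omega)
      have h7 := hL g hg1 M₁ h1 h2 h3
      have h8 := hL g' hg1' M₂ h4 h5
        (MM_sub h6 (union_subset_union subset_union_left (Subset.refl _)))
      rw [val_var P H e d hg2] at h7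
      rw [val_var P H e d hg2'] at h8
      rcases h7 with h7 | h7 <;> rcases h8 with h8 | h8
      · exact hne (hyp.he _ _ h7.1 h8.1 (h7.2.trans h8.2.symm))
      · exact (h6.1 _ (mem_union_right _ h8)).2 j h7.1 h7.2
      · exact (h3.1 _ (mem_union_right _ h7)).2 j' h8.1 h8.2
      · have := h6.2.1 _ (mem_union_left _ (mem_union_right _ h7)) _ (mem_union_right _ h8) rfl
        exact hne (congrArg Prod.snd this)
  | ident g h1 h2 =>
    obtain ⟨M', h3, h4, h5⟩ := hyp.coverG g hMM (by omega)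
    exact hR g h2 M' h3 h4 h5 (hL g h1 M' h3 h4 h5)
  | weak l' h => exact hno (prem l' _ _ M h hMM (by omega))
  | cut g l₁ l₂ h1 h2 =>
    obtain ⟨Mg, h3, h4, h5⟩ := hyp.coverG g hMM (by omega)
    obtain ⟨M₁, h6, h7, h8, h9⟩ := rightOnly g _ subset_union_left (prem l₁ _ _ _ h1 h5 (c2 h3))
    obtain ⟨M₂, h6', h7', h8', h9'⟩ := leftOnly g _ subset_union_left (prem l₂ _ _ _ h2 h5 (c2 h3))
    apply h9'
    rw [← compat h3 h6' h4 h7' (MM_sub h8' (union_subset_union subset_union_right (Subset.refl _)))]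
    rw [compat h3 h6 h4 h7 (MM_sub h8 (union_subset_union subset_union_right (Subset.refl _)))]
    exact h9
  | negL g h l' hg hgl h1 =>
    obtain ⟨Mg, h3, h4, h5⟩ := hyp.coverG g hMM (by omega)
    have h6 := hL g hgl Mg h3 h4 h5
    rw [val_neg P H e d hg] at h6
    obtain ⟨M', h7, h8, h9, h10⟩ := rightOnly h _ subset_union_left
      (prem l' _ _ _ h1 h5 (c2 h3))
    exact h6 M' h7 h8 (MM_sub h9 (union_subset_union subset_union_right (Subset.refl _))) h10
  | negR g h l' hg hgr h1 =>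
    obtain ⟨Mg, h3, h4, h5⟩ := hyp.coverG g hMM (by omega)
    have h6 := hR g hgr Mg h3 h4 h5
    rw [val_neg P H e d hg] at h6
    push Not at h6
    obtain ⟨M₁, h7, h8, h9, h10⟩ := h6
    obtain ⟨σ, α, β, hσ, hext, hαg, hMM2⟩ := hyp.moveG h4 h3 hM h7 h5 h9
    have hαh : α h = h := by
      have := hext.1 g
      rw [hαg, hg] at this
      simp only [Gt.map, Gt.neg.injEq] at this
      exact this.symm
    have h11 := (val_mv (d := d) (e := e) hσ hext _ h le_rfl M₁).2 h10
    have h12 := covG_mv hσ hext h8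
    rw [hαh] at h11 h12
    have h13 : (mv σ M₁).card ≤ d := by rw [card_mv]; exact h7
    obtain ⟨M', h14, h15, h16, h17⟩ := leftOnly h _
      (subset_union_left.trans subset_union_left) (prem l' _ _ _ h1 hMM2 (c3 h3 h13))
    apply h17
    rw [← compat h13 h14 h12 h15
      (MM_sub h16 (union_subset_union subset_union_right (Subset.refl _)))]
    exact h11
  | conjL g h S l' hg hgl hh h1 =>
    obtain ⟨Mg, h3, h4, h5⟩ := hyp.coverG g hMM (by omega)
    have h6 := hL g hgl Mg h3 h4 h5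
    rw [val_conj P H e d hg] at h6
    obtain ⟨M', h7, h8, h9, h10⟩ := leftOnly h _ subset_union_left
      (prem l' _ _ _ h1 h5 (c2 h3))
    exact h10 (h6 h hh M' h7 h8
      (MM_sub h9 (union_subset_union subset_union_right (Subset.refl _))))
  | conjR g S hg hgr h1 =>
    obtain ⟨Mg, h3, h4, h5⟩ := hyp.coverG g hMM (by omega)
    have h6 := hR g hgr Mg h3 h4 h5
    rw [val_conj P H e d hg] at h6
    push Not at h6
    obtain ⟨h, hh, M₁, h7, h8, h9, h10⟩ := h6
    obtain ⟨σ, α, β, hσ, hext, hαg, hMM2⟩ := hyp.moveG h4 h3 hM h7 h5 h9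
    have hαh : α h ∈ S := by
      have := hext.1 g
      rw [hαg, hg] at this
      simp only [Gt.map, Gt.conj.injEq] at this
      rw [this]
      exact mem_map_of_mem _ hh
    have h11 : ¬ val P H e d (α h) (mv σ M₁) := by
      rw [val_mv (d := d) (e := e) hσ hext _ h le_rfl M₁]; exact h10
    have h12 := covG_mv hσ hext h8
    have h13 : (mv σ M₁).card ≤ d := by rw [card_mv]; exact h7
    obtain ⟨l', hl'⟩ := h1 _ hαh
    obtain ⟨M', h14, h15, h16, h17⟩ := rightOnly (α h) _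
      (subset_union_left.trans subset_union_left) (prem l' _ _ _ hl' hMM2 (c3 h3 h13))
    apply h11
    rw [compat h13 h14 h12 h15
      (MM_sub h16 (union_subset_union subset_union_right (Subset.refl _)))]
    exact h17
  | disjL g S hg hgl h1 =>
    obtain ⟨Mg, h3, h4, h5⟩ := hyp.coverG g hMM (by omega)
    have h6 := hL g hgl Mg h3 h4 h5
    rw [val_disj P H e d hg] at h6
    obtain ⟨h, hh, M₁, h7, h8, h9, h10⟩ := h6
    obtain ⟨σ, α, β, hσ, hext, hαg, hMM2⟩ := hyp.moveG h4 h3 hM h7 h5 h9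
    have hαh : α h ∈ S := by
      have := hext.1 g
      rw [hαg, hg] at this
      simp only [Gt.map, Gt.disj.injEq] at this
      rw [this]
      exact mem_map_of_mem _ hh
    have h11 := (val_mv (d := d) (e := e) hσ hext _ h le_rfl M₁).2 h10
    have h12 := covG_mv hσ hext h8
    have h13 : (mv σ M₁).card ≤ d := by rw [card_mv]; exact h7
    obtain ⟨l', hl'⟩ := h1 _ hαh
    obtain ⟨M', h14, h15, h16, h17⟩ := leftOnly (α h) _
      (subset_union_left.trans subset_union_left) (prem l' _ _ _ hl' hMM2 (c3 h3 h13))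
    apply h17
    rw [← compat h13 h14 h12 h15
      (MM_sub h16 (union_subset_union subset_union_right (Subset.refl _)))]
    exact h11
  | disjR g h S l' hg hgr hh h1 =>
    obtain ⟨Mg, h3, h4, h5⟩ := hyp.coverG g hMM (by omega)
    obtain ⟨M', h7, h8, h9, h10⟩ := rightOnly h _ subset_union_left
      (prem l' _ _ _ h1 h5 (c2 h3))
    refine hR g hgr Mg h3 h4 h5 ?_
    rw [val_disj P H e d hg]
    exact ⟨h, hh, M', h7, h8, MM_sub h9 (union_subset_union subset_union_right (Subset.refl _)),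
      h10⟩

theorem no_refutation (hyp : Hyp P H e d) : ¬ P.Refutes {c | Php A B c} := by
  rintro ⟨h1, l, h2, h3⟩
  have key : ∀ k, ∀ l, P.lrank l ≤ k → Tru P H e d l := by
    intro k
    induction k using Nat.strong_induction_on with
    | _ k ih =>
      intro l hl
      exact sound hyp l (h1 l) (fun l' hl' => ih (P.lrank l') (by omega) l' le_rfl)
  have hd := hyp.hd
  obtain ⟨M, h4, h5, h6⟩ := hyp.coverL l (N := ∅) (by simp [MM]) (by simp; omega)
  rw [empty_union] at h6
  rcases key _ l le_rfl M h4 h5 h6 with ⟨g, hg, _⟩ | ⟨g, hg, _⟩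
  · rw [h3] at hg; simp at hg
  · rw [h2] at hg; simp at hg

end Pool.Agent.T9h47.SF
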