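import Mathlib
import Pool.Agent.T9h47.SF.Rules

/-!
# The lower bound for symmetric refutations of the pigeonhole principle
-/

set_option autoImplicit false
set_option linter.unusedSectionVars false

namespace Pool.Agent.T9h47.SF

open Finset Equiv Equiv.Perm

variable {A B : Type} [Fintype A] [Fintype B] [DecidableEq A] [DecidableEq B]

theorem lf_one : lf (A := A) (1 : Perm B) = 1 := by
  ext x <;> rfl

theorem ext_one (P : Pf (A × B)) : P.Ext (lf (1 : Perm B)) 1 1 := by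
  rw [lf_one]
  refine ⟨fun g => ?_, fun l => ?_, fun l => ?_⟩
  · rw [Gt.map_one]; rfl
  · rw [map_one_emb]; rfl
  · rw [map_one_emb]; rfl

/-- the permutations of the holes in `H` with an extension that fixes a formula or a sequent -/
def stb (P : Pf (A × B)) (H : Finset B) (Q : Perm P.G → Perm P.L → Prop) (h1 : Q 1 1)
    (hm : ∀ α α' β β', Q α β → Q α' β' → Q (α * α') (β * β'))
    (hi : ∀ α β, Q α β → Q α⁻¹ β⁻¹) : Subgroup (Perm B) where
  carrier := {σ | (∀ j, j ∉ H → σ j = j) ∧ ∃ α β, P.Ext (lf σ) α β ∧ Q α β}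
  one_mem' := ⟨fun _ _ => rfl, 1, 1, ext_one P, h1⟩
  mul_mem' := by
    rintro σ τ ⟨h1, α, β, h2, h3⟩ ⟨h1', α', β', h2', h3'⟩
    refine ⟨fun j hj => by rw [Perm.mul_apply, h1' j hj, h1 j hj], α * α', β * β', ?_,
      hm _ _ _ _ h3 h3'⟩
    rw [lf_mul]
    exact h2.mul h2'
  inv_mem' := by
    rintro σ ⟨h1, α, β, h2, h3⟩
    refine ⟨fix_inv h1, α⁻¹, β⁻¹, ?_, hi _ _ h3⟩
    rw [lf_inv]
    exact h2.inv

theorem support {P : Pf (A × B)} {H : Finset B} (hsym : P.SymmetricOn H)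
    {C : Type} [Fintype C] (act : Perm P.G → Perm P.L → C → C) (x : C)
    (h1 : act 1 1 x = x)
    (hm : ∀ α α' β β' y, act (α * α') (β * β') y = act α β (act α' β' y))
    (r : ℕ) (hr : Fintype.card C < 2 ^ r) (hH : 10 * r + 5 ≤ H.card) :
    ∃ Δ ⊆ H, Δ.card ≤ 10 * r ∧ ∀ σ, EvOn (H \ Δ) σ →
      ∃ α β, P.Ext (lf σ) α β ∧ act α β x = x := by
  classical
  have hi : ∀ α β, act α β x = x → act α⁻¹ β⁻¹ x = x := by
    intro α β h
    have h2 := hm α⁻¹ α β⁻¹ β x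
    rw [inv_mul_cancel, inv_mul_cancel, h1, h] at h2
    exact h2.symm
  obtain ⟨K, hK⟩ : ∃ K : Subgroup (Perm B), K = stb P H (fun α β => act α β x = x) h1
      (fun α α' β β' h h' => by rw [hm, h', h]) hi := ⟨_, rfl⟩
  choose ex ey hex using hsym
  obtain ⟨c, hc⟩ : ∃ c : Perm B → C, c = fun σ => if h : ∀ j, j ∉ H → σ j = j then
      act (ex σ h) (ey σ h) x else x := ⟨_, rfl⟩
  obtain ⟨Δ, h2, h3, h4⟩ := exists_support K H c (by
    intro σ τ hσ hτ hcc
    have hcσ : c σ = act (ex σ hσ) (ey σ hσ) x := by rw [hc]; exact dif_pos hσ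
    have hcτ : c τ = act (ex τ hτ) (ey τ hτ) x := by rw [hc]; exact dif_pos hτ
    rw [hcσ, hcτ] at hcc
    rw [hK]
    refine ⟨?_, (ex σ hσ)⁻¹ * ex τ hτ, (ey σ hσ)⁻¹ * ey τ hτ, ?_, ?_⟩
    · intro j hj
      rw [Perm.mul_apply, hτ j hj, fix_inv hσ j hj]
    · rw [lf_mul, lf_inv]
      exact (hex σ hσ).inv.mul (hex τ hτ)
    · show act ((ex σ hσ)⁻¹ * ex τ hτ) ((ey σ hσ)⁻¹ * ey τ hτ) x = x
      rw [hm, ← hcc, ← hm, inv_mul_cancel, inv_mul_cancel, h1]) r hr hH
  refine ⟨Δ, h2, h3, fun σ hσ => ?_⟩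
  have h5 := h4 σ hσ
  rw [hK] at h5
  exact h5.2

theorem hyp_of_sym {P : Pf (A × B)} {H : Finset B} (hsym : P.SymmetricOn H)
    (hAB : Fintype.card B < Fintype.card A) (r : ℕ) (hr : P.size < 2 ^ r)
    (hH : 50 * r + 3 ≤ H.card) (hr1 : 1 ≤ r) : ∃ e : B → A, Hyp P H e (10 * r) := by
  classical
  obtain ⟨e⟩ : Nonempty (B ↪ A) := Function.Embedding.nonempty_of_card_le hAB.le
  have hG : @Fintype.card P.G P.finG < 2 ^ r := lt_of_le_of_lt (Nat.le_add_right _ _) hr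
  have hL : @Fintype.card P.L P.finL < 2 ^ r := lt_of_le_of_lt (Nat.le_add_left _ _) hr
  let _ : Fintype P.G := P.finG
  let _ : Fintype P.L := P.finL
  refine ⟨e, fun j j' _ _ h => e.injective h, hAB, by omega, ?_, ?_⟩
  · intro g
    exact support hsym (fun α _ y => α y) g rfl (fun _ _ _ _ _ => rfl) r hG (by omega)
  · intro l
    exact support hsym (fun _ β y => β y) l rfl (fun _ _ _ _ _ => rfl) r hL (by omega)

/-- The lower bound. -/
theorem main_sym (P : Pf (A × B)) (H : Finset B) (hAB : Fintype.card B < Fintype.card A)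
    (href : P.Refutes {c | Php A B c}) (hsym : P.SymmetricOn H) :
    2 ^ H.card ≤ 2 ^ 52 * P.size ^ 50 := by
  by_contra hcon
  rw [not_le] at hcon
  have hpos : P.size ≠ 0 := by
    intro h
    obtain ⟨_, l, _⟩ := href
    unfold Pf.size at h
    have h1 : @Fintype.card P.L P.finL = 0 := by omega
    have := (@Fintype.card_eq_zero_iff P.L P.finL).1 h1
    exact this.false l
  obtain ⟨r, hr⟩ : ∃ r, r = Nat.log 2 P.size + 1 := ⟨_, rfl⟩
  have h1 : P.size < 2 ^ r := by rw [hr]; exact Nat.lt_pow_succ_log_self (by norm_num) _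
  have h2 : 2 ^ Nat.log 2 P.size ≤ P.size := Nat.pow_log_le_self 2 hpos
  have h3 : 2 ^ (52 + Nat.log 2 P.size * 50) < 2 ^ H.card := by
    refine lt_of_le_of_lt ?_ hcon
    rw [pow_add, pow_mul]
    exact Nat.mul_le_mul_left _ (Nat.pow_le_pow_left h2 _)
  have h4 := (Nat.pow_lt_pow_iff_right (by norm_num : 1 < 2)).1 h3
  obtain ⟨e, hyp⟩ := hyp_of_sym hsym hAB r h1 (by omega) (by omega)
  exact no_refutation hyp href

end Pool.Agent.T9h47.SF
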