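import Mathlib
import Pool.Agent.T9h47.SF.Supp
import Pool.Agent.T9h47.SF.Sound

/-!
# A sharp bound for the size of supports
-/

set_option autoImplicit false
set_option linter.unusedSectionVars false

namespace Pool.Agent.T9h47.SF

open Finset Equiv Equiv.Perm

variable {α : Type} [Fintype α] [DecidableEq α]

theorem cyc_apply {x y z : α} (hxy : x ≠ y) (hyz : y ≠ z) (hxz : x ≠ z) :
    (swap x y * swap y z) z = x ∧ (swap x y * swap y z) x = y ∧ (swap x y * swap y z) y = z := by
  refine ⟨?_, ?_, ?_⟩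
  · rw [Perm.mul_apply, swap_apply_right, swap_apply_right]
  · rw [Perm.mul_apply, swap_apply_of_ne_of_ne hxy hxz, swap_apply_left]
  · rw [Perm.mul_apply, swap_apply_left, swap_apply_of_ne_of_ne hxz.symm hyz.symm]

theorem evOn_cyc {U : Finset α} {x y z : α} (hxy : x ≠ y) (hyz : y ≠ z) (hx : x ∈ U) (hy : y ∈ U)
    (hz : z ∈ U) : EvOn U (swap x y * swap y z) := by
  refine ⟨fun w hw => ?_, ?_⟩
  · have h1 : w ≠ x := fun h => hw (h ▸ hx)
    have h2 : w ≠ y := fun h => hw (h ▸ hy)
    have h3 : w ≠ z := fun h => hw (h ▸ hz)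
    rw [Perm.mul_apply, swap_apply_of_ne_of_ne h2 h3, swap_apply_of_ne_of_ne h1 h2]
  · rw [Perm.sign_mul, sign_swap hxy, sign_swap hyz]
    norm_num

theorem evOn_of_fix {U : Finset α} {x : α} {g : Perm α} (hg : EvOn (insert x U) g)
    (h : g x = x) : EvOn U g := by
  refine ⟨fun w hw => ?_, hg.2⟩
  by_cases hwx : w = x
  · rw [hwx]; exact h
  · exact hg.1 w (by rw [mem_insert, not_or]; exact ⟨hwx, hw⟩)

/-- enlarging an alternating group by one point -/
theorem ext_one_pt (K : Subgroup (Perm α)) {U : Finset α} {x y z : α} (hx : x ∉ U) (hy : y ∈ U)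
    (hz : z ∈ U) (hyz : y ≠ z) (hU : ∀ g, EvOn U g → g ∈ K) (hc : swap x y * swap y z ∈ K)
    (hcard : 3 ≤ U.card) {g : Perm α} (hg : EvOn (insert x U) g) : g ∈ K := by
  have hxy : x ≠ y := fun h => hx (h ▸ hy)
  have hxz : x ≠ z := fun h => hx (h ▸ hz)
  by_cases hfix : g x = x
  · exact hU g (evOn_of_fix hg hfix)
  have huU : g x ∈ U := by
    have h1 : g x ∈ insert x U := by
      by_contra h
      have h2 := hg.1 _ h
      exact hfix (g.injective h2)
    rcases mem_insert.1 h1 with h2 | h2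
    · exact absurd h2 hfix
    · exact h2
  obtain ⟨a, ha1, ha2⟩ := exists_even_ext U {g x} (fun _ => z) (by simpa using huU)
    (fun _ _ => hz) (by
      intro w hw w' hw' _
      rw [mem_singleton] at hw hw'
      rw [hw, hw']) (by simpa using hcard)
  have h2 := ha2 (g x) (mem_singleton_self _)
  have h3 : swap x y * swap y z * a * g ∈ K := by
    apply hU
    refine evOn_of_fix (x := x) ?_ ?_
    · refine EvOn.mul (EvOn.mul ?_ (ha1.mono (subset_insert _ _))) hg
      exact evOn_cyc hxy hyz (mem_insert_self _ _) (mem_insert_of_mem hy) (mem_insert_of_mem hz)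
    · rw [Perm.mul_apply, Perm.mul_apply, h2]
      exact (cyc_apply hxy hyz hxz).1
  have h4 : g = (swap x y * swap y z * a)⁻¹ * (swap x y * swap y z * a * g) := by group
  rw [h4]
  exact K.mul_mem (K.inv_mem (K.mul_mem hc (hU a ha1))) h3

theorem choose_mono_half (n : ℕ) {a b : ℕ} (hab : a ≤ b) (hb : 2 * b ≤ n) :
    n.choose a ≤ n.choose b := by
  induction b, hab using Nat.le_induction with
  | base => exact le_rfl
  | succ b hab ih =>
    refine (ih (by omega)).trans (Nat.choose_le_succ_of_lt_half_left (by omega))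

theorem exists_map_set {H Δ T : Finset α} (hΔ : Δ ⊆ H) (hT : T ⊆ H) (hc : T.card = Δ.card)
    (hcard : Δ.card + 2 ≤ H.card) : ∃ σ : Perm α, EvOn H σ ∧ Δ.image σ = T := by
  classical
  rcases Δ.eq_empty_or_nonempty with rfl | ⟨j₀, hj₀⟩
  · rw [card_empty, card_eq_zero] at hc
    exact ⟨1, ⟨fun _ _ => rfl, by simp⟩, by rw [hc, image_empty]⟩
  obtain ⟨f, hf1, hf2⟩ := exists_inj Δ T hc.symm.le j₀
  obtain ⟨σ, hσ1, hσ2⟩ := exists_even_ext H Δ f hΔ (fun x hx => hT (hf1 x hx)) hf2 hcard
  refine ⟨σ, hσ1, ?_⟩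
  apply eq_of_subset_of_card_le
  · intro x hx
    obtain ⟨y, hy, rfl⟩ := mem_image.1 hx
    rw [hσ2 y hy]
    exact hf1 y hy
  · rw [hc, card_image_of_injective _ σ.injective]

/-- **The sharp support theorem**: a subgroup of the symmetric group on `H` of index less than
`H.card.choose k` contains all even permutations which fix fewer than `k` given elements. -/
theorem support_sharp (K : Subgroup (Perm α)) {C : Type} [Fintype C] (H : Finset α)
    (c : Perm α → C)
    (hc : ∀ σ τ : Perm α, (∀ x, x ∉ H → σ x = x) → (∀ x, x ∉ H → τ x = x) → c σ = c τ →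
      σ⁻¹ * τ ∈ K) (r k : ℕ) (hr : Fintype.card C < 2 ^ r) (hH : 20 * r + 5 ≤ H.card)
    (hk : Fintype.card C < H.card.choose k) :
    ∃ Δ ⊆ H, Δ.card < k ∧ ∀ g, EvOn (H \ Δ) g → g ∈ K := by
  classical
  obtain ⟨Δ₀, h1, h2, h3⟩ := exists_support K H c hc r hr (by omega)
  -- a smallest support
  obtain ⟨Δ, hΔ, hmin⟩ : ∃ Δ, (Δ ⊆ H ∧ ∀ g, EvOn (H \ Δ) g → g ∈ K) ∧
      ∀ Δ', (Δ' ⊆ H ∧ ∀ g, EvOn (H \ Δ') g → g ∈ K) → Δ.card ≤ Δ'.card := by
    obtain ⟨Δ, h4, h5⟩ := exists_min_image
      (H.powerset.filter (fun Δ => ∀ g, EvOn (H \ Δ) g → g ∈ K)) card ⟨Δ₀, by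
        rw [mem_filter, mem_powerset]; exact ⟨h1, h3⟩⟩
    rw [mem_filter, mem_powerset] at h4
    exact ⟨Δ, h4, fun Δ' h' => h5 Δ' (by rw [mem_filter, mem_powerset]; exact h')⟩
  obtain ⟨hΔH, hΔK⟩ := hΔ
  have hΔr : Δ.card ≤ 10 * r := (hmin Δ₀ ⟨h1, h3⟩).trans h2
  -- it is invariant
  have hinv : ∀ g ∈ K, (∀ x, x ∉ H → g x = x) → Δ.image g = Δ := by
    intro g hg hgH
    have hpres : ∀ x ∈ H, g x ∈ H := by
      intro x hx
      by_contra h
      have h4 := hgH _ h
      rw [g.injective h4] at h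
      exact h hx
    by_contra hne
    obtain ⟨x, hx1, hx2⟩ : ∃ x ∈ Δ, x ∉ Δ.image g := by
      by_contra hcon
      push Not at hcon
      apply hne
      exact (eq_of_subset_of_card_le hcon (by rw [card_image_of_injective _ g.injective])).symm
    obtain ⟨U, hU⟩ : ∃ U, U = H \ Δ := ⟨_, rfl⟩
    have hUc : U.card + Δ.card = H.card := by
      rw [hU]; exact card_sdiff_add_card_eq_card hΔH
    have hgU : (U.image g).card = U.card := card_image_of_injective _ g.injective
    have hUH : U ⊆ H := by rw [hU]; exact sdiff_subset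
    have hgUH : U.image g ⊆ H := by
      intro y hy
      obtain ⟨w, hw, rfl⟩ := mem_image.1 hy
      exact hpres w (hUH hw)
    have hint : 2 ≤ (U ∩ U.image g).card := by
      have h4 := card_union_add_card_inter U (U.image g)
      have h5 : (U ∪ U.image g).card ≤ H.card := card_le_card (union_subset hUH hgUH)
      omega
    obtain ⟨y, hy, z, hz, hyz⟩ := one_lt_card.1 hint
    rw [mem_inter] at hy hz
    have hxU : x ∈ U.image g := by
      have h4 : g⁻¹ x ∈ H := by
        by_contra h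
        have h5 := hgH _ h
        rw [show g (g⁻¹ x) = x from g.apply_symm_apply x] at h5
        rw [← h5] at h
        exact h (hΔH hx1)
      refine mem_image.2 ⟨g⁻¹ x, ?_, g.apply_symm_apply x⟩
      rw [hU, mem_sdiff]
      refine ⟨h4, fun h => hx2 (mem_image.2 ⟨g⁻¹ x, h, g.apply_symm_apply x⟩)⟩
    have hxU' : x ∉ U := by rw [hU, mem_sdiff]; exact fun h => h.2 hx1
    have hconj : ∀ t, EvOn (U.image g) t → t ∈ K := by
      intro t ht
      have h4 : EvOn U (g⁻¹ * t * g) := by
        refine ⟨fun w hw => ?_, ?_⟩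
        · rw [Perm.mul_apply, Perm.mul_apply, Perm.inv_eq_iff_eq]
          apply ht.1
          intro h
          obtain ⟨w', hw', h5⟩ := mem_image.1 h
          exact hw (g.injective h5 ▸ hw')
        · rw [Perm.sign_mul, Perm.sign_mul, sign_inv, ht.2]
          simp
      have h5 : t = g * (g⁻¹ * t * g) * g⁻¹ := by group
      rw [h5]
      exact K.mul_mem (K.mul_mem hg (hΔK _ (by rw [← hU]; exact h4))) (K.inv_mem hg)
    have hxy : x ≠ y := fun h => hxU' (h ▸ hy.1)
    have h6 : ∀ t, EvOn (insert x U) t → t ∈ K := fun t ht =>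
      ext_one_pt K hxU' hy.1 hz.1 hyz (by rw [hU]; exact hΔK)
        (hconj _ (evOn_cyc hxy hyz hxU hy.2 hz.2)) (by omega) ht
    have h7 := hmin (Δ.erase x) ⟨(erase_subset _ _).trans hΔH, fun t ht => h6 t (ht.mono (by
      intro w hw
      rw [mem_sdiff, mem_erase, not_and_or, not_not] at hw
      rw [mem_insert, hU, mem_sdiff]
      rcases hw.2 with h | h
      · exact Or.inl h
      · exact Or.inr ⟨hw.1, h⟩))⟩
    rw [card_erase_of_mem hx1] at h7
    have : 0 < Δ.card := card_pos.2 ⟨x, hx1⟩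
    omega
  refine ⟨Δ, hΔH, ?_, hΔK⟩
  by_contra hcon
  rw [not_lt] at hcon
  have h4 : H.card.choose Δ.card ≤ Fintype.card C := by
    rw [← card_powersetCard, ← card_univ]
    have hch : ∀ T, ∃ σ : Perm α, T ∈ powersetCard Δ.card H → EvOn H σ ∧ Δ.image σ = T := by
      intro T
      by_cases hT : T ∈ powersetCard Δ.card H
      · rw [mem_powersetCard] at hT
        obtain ⟨σ, h5, h6⟩ := exists_map_set hΔH hT.1 hT.2 (by omega)
        exact ⟨σ, fun _ => ⟨h5, h6⟩⟩
      · exact ⟨1, fun h => absurd h hT⟩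
    choose s hs using hch
    refine card_le_card_of_injOn (fun T => c (s T)) (fun _ _ => mem_coe.2 (mem_univ _)) ?_
    intro T hT T' hT' heq
    obtain ⟨h5, h6⟩ := hs T hT
    obtain ⟨h5', h6'⟩ := hs T' hT'
    have h7 := hc (s T) (s T') h5.1 h5'.1 heq
    have h8 := hinv _ h7 (fun x hx => by
      rw [Perm.mul_apply, h5'.1 x hx, Perm.inv_eq_iff_eq, h5.1 x hx])
    rw [← h6, ← h6']
    have h9 : Δ.image (s T') = (Δ.image ((s T)⁻¹ * s T')).image (s T) := by
      rw [image_image]
      refine image_congr ?_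
      intro x _
      show s T' x = s T (((s T)⁻¹ * s T') x)
      rw [Perm.mul_apply]
      exact ((s T).apply_symm_apply _).symm
    rw [h9, h8]
  have h5 := choose_mono_half H.card hcon (by omega)
  omega

end Pool.Agent.T9h47.SF
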